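import Mathlib

/-!
# The value 7/4 in Thurnheer's theorem on approximation from large domains is optimal

For `1 < ρ < 7/4` we construct `Θ = (θ₁, θ₂)`, with `1, θ₁, θ₂` linearly independent over `ℤ`,
such that `|x| ^ s * ‖θ₁ x₁ + θ₂ x₂‖` tends to infinity along the integer points of the domain
`|x₂| ≤ |x₁| ^ ρ` or `|x₁| ≤ 1`, for some `s < 2`.

Sketch. `Θ` is the limit of rational points `R_k` of denominator `D_k`. Near `R_k` the point `Θ`
lies very close to two rational lines with normal vectors `r_k = (a_k, b_k)` and `r_{k+1}`, which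
form a basis of the lattice of integer vectors whose product with `R_k` is an integer, and `a_k`
is a very small power of `b_k`, so these vectors lie just outside the domain. The sizes are
`b_{k+1}` about `b_k ^ 3` and `‖r_k Θ‖` about `b_{k+1} ^ (-2)`. Between consecutive scales the
coordinate of `Θ` on the line is badly approximable.
-/

namespace Pool.Agent.Results.MP_594f4b_nt.SevenFourths

open Finset Filter Topology

/-! ### The statement -/

/-- The distance from a real number to the nearest integer. -/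
noncomputable def distInt (y : ℝ) : ℝ := |y - round y|

/-- The model domain `Φ₀(ρ, τ)`. For `τ = 0` the second set is the strip `|x₁| ≤ 1`, because
`z ^ (0 : ℝ) = 1` for every real `z`. -/
def Phi0 (ρ τ : ℝ) : Set (ℝ × ℝ) :=
  {x | |x.2| ≤ |x.1| ^ ρ} ∪ {x | |x.1| ≤ |x.2| ^ τ}

/-- The pair `(ρ, τ)` admits the exponent `s`. -/
def Admits (ρ τ s : ℝ) : Prop :=
  ∀ θ₁ θ₂ : ℝ, LinearIndependent ℤ ![1, θ₁, θ₂] →
    ∀ L : (ℝ × ℝ) ≃ₗ[ℝ] (ℝ × ℝ), ∃ c : ℝ, 0 < c ∧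
      {x : ℤ × ℤ | ((x.1 : ℝ), (x.2 : ℝ)) ∈ L '' Phi0 ρ τ ∧
        distInt (θ₁ * x.1 + θ₂ * x.2) ≤ c * (max |(x.1 : ℝ)| |(x.2 : ℝ)|) ^ (-s)}.Infinite

/-! ### Badly approximable numbers near a rational number -/

theorem two_sq_ne (n p : ℤ) (hn : n ≠ 0) : 2 * n ^ 2 - p ^ 2 ≠ 0 := by
  intro h
  have hn' : (n : ℝ) ≠ 0 := by exact_mod_cast hn
  have h1 : ((p : ℝ) / n) ^ 2 = 2 := by
    have : (2 * (n : ℝ) ^ 2 - (p : ℝ) ^ 2) = 0 := by exact_mod_cast h
    field_simp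
    linarith
  have h2 : |(p : ℝ) / n| = √2 := by
    rw [← h1, Real.sqrt_sq_eq_abs]
  apply irrational_sqrt_two
  refine ⟨|(p : ℚ) / n|, ?_⟩
  rw [← h2]
  push_cast
  rfl

theorem sqrt2_lower (n : ℤ) (hn : n ≠ 0) (p : ℤ) :
    1 / (4 * |(n : ℝ)|) ≤ |n * √2 - p| := by
  have hn1 : (1 : ℝ) ≤ |(n : ℝ)| := by exact_mod_cast Int.one_le_abs hn
  by_cases h : |n * √2 - p| ≤ 1
  · have h1 : (1 : ℝ) ≤ |2 * (n : ℝ) ^ 2 - (p : ℝ) ^ 2| := by
      exact_mod_cast Int.one_le_abs (two_sq_ne n p hn)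
    have h2 : |n * √2 - p| * |n * √2 + p| = |2 * (n : ℝ) ^ 2 - (p : ℝ) ^ 2| := by
      rw [← abs_mul]
      congr 1
      have : √2 ^ 2 = 2 := Real.sq_sqrt (by norm_num)
      linear_combination (n : ℝ) ^ 2 * this
    have hs : √2 ≤ 3 / 2 := by
      rw [Real.sqrt_le_left (by norm_num)]; norm_num
    have h3 : |n * √2 + p| ≤ 4 * |(n : ℝ)| := by
      have e : n * √2 + p = 2 * (n * √2) - (n * √2 - p) := by ring
      rw [e]
      refine (abs_sub _ _).trans ?_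
      rw [abs_mul, abs_mul, abs_of_nonneg (Real.sqrt_nonneg 2), abs_two]
      nlinarith [abs_nonneg (n : ℝ)]
    rw [div_le_iff₀ (by positivity)]
    calc (1 : ℝ) ≤ |n * √2 - p| * |n * √2 + p| := by rw [h2]; exact h1
      _ ≤ |n * √2 - p| * (4 * |(n : ℝ)|) := by gcongr
  · push Not at h
    refine le_trans ?_ h.le
    rw [div_le_one (by positivity)]
    linarith

/-- The real number used at one stage. -/
noncomputable def al (u v : ℤ) (D w : ℕ) (A : ℕ) : ℝ :=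
  (u * (A + √2) + v) / (D * (A + √2) + w)

theorem al_lower (u v : ℤ) (D w A : ℕ) (hD : 0 < D) (hw : w ≤ D) (hA : 2 ≤ A)
    (hdet : u * w - v * D = 1) (j : ℕ) (hj : 0 < j) (p : ℤ) :
    min (1 / (8 * (j : ℝ))) (1 / (4 * A * D)) ≤ |j * al u v D w A - p| := by
  have hD' : (1 : ℝ) ≤ D := by exact_mod_cast hD
  have hw' : (w : ℝ) ≤ D := by exact_mod_cast hw
  have hw0 : (0 : ℝ) ≤ w := by positivity
  have hA' : (2 : ℝ) ≤ A := by exact_mod_cast hA
  have hj' : (1 : ℝ) ≤ j := by exact_mod_cast hj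
  have hs : √2 ≤ 3 / 2 := by
    rw [Real.sqrt_le_left (by norm_num)]; norm_num
  have hs1 : 1 ≤ √2 := by
    rw [Real.one_le_sqrt]; norm_num
  set y : ℝ := A + √2 with hy
  set q : ℝ := D * y + w with hq
  have hqlow : (A : ℝ) * D + D ≤ q := by rw [hq, hy]; nlinarith
  have hqlow' : 3 * (D : ℝ) ≤ q := by nlinarith
  have hq0 : 0 < q := by linarith
  have hqup : q ≤ 4 * A * D := by rw [hq, hy]; nlinarith
  set n : ℤ := j * u - p * D with hn
  set mm : ℤ := p * w - j * v with hmm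
  have e1 : (mm : ℝ) * D + n * w = j := by
    have : mm * D + n * w = j := by
      rw [hn, hmm]; linear_combination (j : ℤ) * hdet
    exact_mod_cast this
  have e2 : j * al u v D w A - p = (n * y - mm) / q := by
    unfold al
    rw [← hy, ← hq, eq_div_iff hq0.ne', sub_mul, mul_assoc, div_mul_cancel₀ _ hq0.ne', hq, hn, hmm]
    push_cast
    ring
  rw [e2, abs_div, abs_of_pos hq0]
  by_cases h1 : 1 ≤ |(n : ℝ) * y - mm|
  · refine (min_le_right _ _).trans ?_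
    rw [div_le_div_iff₀ (by positivity) hq0]
    nlinarith [abs_nonneg ((n : ℝ) * y - mm)]
  · push Not at h1
    have hn0 : n ≠ 0 := by
      intro h0
      rw [h0] at h1 e1
      have hm0 : mm ≠ 0 := by
        intro h2
        rw [h2] at e1
        have : (j : ℝ) = 0 := by rw [← e1]; simp
        linarith
      have : (1 : ℝ) ≤ |(mm : ℝ)| := by exact_mod_cast Int.one_le_abs hm0
      simp at h1
      linarith
    refine (min_le_left _ _).trans ?_
    have hn1 : (1 : ℝ) ≤ |(n : ℝ)| := by exact_mod_cast Int.one_le_abs hn0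
    have h2 : 1 / (4 * |(n : ℝ)|) ≤ |(n : ℝ) * y - mm| := by
      have := sqrt2_lower n hn0 (mm - n * A)
      have e3 : (n : ℝ) * y - mm = n * √2 - ((mm - n * A : ℤ) : ℝ) := by
        rw [hy]; push_cast; ring
      rw [e3]
      exact this
    have h3 : |(n : ℝ)| * q ≤ j + D := by
      have e4 : (n : ℝ) * q = j + (n * y - mm) * D := by
        rw [hq]; linear_combination e1
      rw [← abs_of_pos hq0, ← abs_mul, e4]
      refine (abs_add_le _ _).trans ?_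
      rw [abs_mul, abs_of_nonneg (by positivity : (0 : ℝ) ≤ j),
        abs_of_nonneg (by positivity : (0 : ℝ) ≤ D)]
      nlinarith
    have h4 : (D : ℝ) ≤ j := by nlinarith
    have h5 : |(n : ℝ)| * q ≤ 2 * j := by linarith
    rw [div_le_div_iff₀ (by positivity) hq0]
    rw [div_le_iff₀ (by positivity)] at h2
    nlinarith [abs_nonneg ((n : ℝ) * y - mm)]

theorem al_irrational (u v : ℤ) (D w A : ℕ) (hD : 0 < D) (hw : w ≤ D) (hA : 2 ≤ A)
    (hdet : u * w - v * D = 1) : Irrational (al u v D w A) := by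
  rintro ⟨r, hr⟩
  have hd : 0 < r.den := r.den_pos
  have := al_lower u v D w A hD hw hA hdet r.den hd r.num
  rw [← hr] at this
  have h0 : ((r.den : ℝ) * (r : ℝ) - (r.num : ℝ)) = 0 := by
    have h1 : (r.den : ℚ) * r = r.num := Rat.den_mul_eq_num r
    have h2 : (r.den : ℝ) * (r : ℝ) = (r.num : ℝ) := by exact_mod_cast h1
    rw [h2]; ring
  rw [h0, abs_zero] at this
  have hpos : 0 < min (1 / (8 * (r.den : ℝ))) (1 / (4 * A * D)) := by
    have : (0 : ℝ) < r.den := by exact_mod_cast hd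
    have : (0 : ℝ) < A := by exact_mod_cast (by omega : 0 < A)
    have : (0 : ℝ) < D := by exact_mod_cast hD
    positivity
  linarith

theorem al_dist (u v : ℤ) (D w A : ℕ) (hD : 0 < D) (hw : w ≤ D) (hA : 2 ≤ A)
    (hdet : u * w - v * D = 1) :
    |al u v D w A - u / D| ≤ 1 / (A * (D : ℝ) ^ 2) ∧
      1 / (4 * A * (D : ℝ) ^ 2) ≤ |al u v D w A - u / D| := by
  have hD' : (1 : ℝ) ≤ D := by exact_mod_cast hD
  have hw' : (w : ℝ) ≤ D := by exact_mod_cast hw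
  have hw0 : (0 : ℝ) ≤ w := by positivity
  have hA' : (2 : ℝ) ≤ A := by exact_mod_cast hA
  have hs : √2 ≤ 3 / 2 := by
    rw [Real.sqrt_le_left (by norm_num)]; norm_num
  have hs1 : 1 ≤ √2 := by
    rw [Real.one_le_sqrt]; norm_num
  set y : ℝ := A + √2 with hy
  set q : ℝ := D * y + w with hq
  have hqlow : (A : ℝ) * D ≤ q := by rw [hq, hy]; nlinarith
  have hq0 : 0 < q := by nlinarith
  have hqup : q ≤ 4 * A * D := by rw [hq, hy]; nlinarith
  have hdet' : (u : ℝ) * w - v * D = 1 := by exact_mod_cast hdet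
  have e : al u v D w A - u / D = -1 / (D * q) := by
    unfold al
    rw [← hy, ← hq, div_sub_div _ _ hq0.ne' (by positivity), div_eq_div_iff (by positivity)
      (by positivity), hq]
    linear_combination (-(D * y + w) * D : ℝ) * hdet'
  rw [e, abs_div, abs_neg, abs_one, abs_of_pos (by positivity)]
  constructor
  · apply one_div_le_one_div_of_le (by positivity)
    nlinarith
  · apply one_div_le_one_div_of_le (by positivity)
    nlinarith

/-! ### Integers coprime to a given number in short intervals -/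

theorem card_Ioc_floor (x L : ℝ) (hL : 0 ≤ L) :
    |((Finset.Ioc ⌊x⌋ ⌊x + L⌋).card : ℝ) - L| ≤ 1 := by
  have h : ⌊x⌋ ≤ ⌊x + L⌋ := Int.floor_le_floor (by linarith)
  rw [Int.card_Ioc]
  have h2 : (((⌊x + L⌋ - ⌊x⌋).toNat : ℕ) : ℝ) = (⌊x + L⌋ : ℝ) - ⌊x⌋ := by
    have : (((⌊x + L⌋ - ⌊x⌋).toNat : ℤ)) = ⌊x + L⌋ - ⌊x⌋ := Int.toNat_of_nonneg (by omega)
    exact_mod_cast congrArg (fun z : ℤ => (z : ℝ)) this
  rw [h2, abs_le]
  have h3 := Int.floor_le x
  have h4 := Int.lt_floor_add_one x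
  have h5 := Int.floor_le (x + L)
  have h6 := Int.lt_floor_add_one (x + L)
  constructor <;> linarith

theorem count_coprime (S : Finset ℕ) (hS : ∀ p ∈ S, p.Prime) :
    ∀ x L : ℝ, 0 ≤ L →
      |(((Finset.Ioc ⌊x⌋ ⌊x + L⌋).filter (fun n : ℤ => ∀ p ∈ S, ¬ (p : ℤ) ∣ n)).card : ℝ)
        - L * ∏ p ∈ S, (1 - 1 / (p : ℝ))| ≤ 2 ^ S.card := by
  induction S using Finset.induction_on with
  | empty =>
    intro x L hL
    simpa using card_Ioc_floor x L hL
  | insert p S hp ih =>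
    intro x L hL
    have hS' : ∀ q ∈ S, q.Prime := fun q hq => hS q (mem_insert_of_mem hq)
    have hpp : p.Prime := hS p (mem_insert_self p S)
    have hp0 : (0 : ℝ) < p := by exact_mod_cast hpp.pos
    have h1 := ih hS' x L hL
    have h2 := ih hS' (x / p) (L / p) (by positivity)
    have hsplit : (Finset.Ioc ⌊x⌋ ⌊x + L⌋).filter (fun n : ℤ => ∀ q ∈ S, ¬ (q : ℤ) ∣ n)
        = (Finset.Ioc ⌊x⌋ ⌊x + L⌋).filter (fun n : ℤ => ∀ q ∈ insert p S, ¬ (q : ℤ) ∣ n) ∪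
          ((Finset.Ioc ⌊x / p⌋ ⌊x / p + L / p⌋).filter (fun n : ℤ => ∀ q ∈ S, ¬ (q : ℤ) ∣ n)).image
            (fun m : ℤ => (p : ℤ) * m) := by
      ext n
      simp only [mem_union, mem_filter, mem_image, mem_Ioc, mem_insert, forall_eq_or_imp]
      have key : ∀ m : ℤ, (⌊x⌋ < (p : ℤ) * m ∧ (p : ℤ) * m ≤ ⌊x + L⌋) ↔
          (⌊x / p⌋ < m ∧ m ≤ ⌊x / p + L / p⌋) := by
        intro m
        rw [Int.floor_lt, Int.le_floor, Int.floor_lt, Int.le_floor, ← add_div, div_lt_iff₀ hp0,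
          le_div_iff₀ hp0]
        push_cast
        rw [mul_comm (p : ℝ) (m : ℝ)]
      have key2 : ∀ m : ℤ, (∀ q ∈ S, ¬ (q : ℤ) ∣ (p : ℤ) * m) ↔ (∀ q ∈ S, ¬ (q : ℤ) ∣ m) := by
        intro m
        constructor
        · intro h q hq hd
          exact h q hq (hd.mul_left _)
        · intro h q hq hd
          have hq' : Prime (q : ℤ) := Nat.prime_iff_prime_int.1 (hS' q hq)
          rcases hq'.dvd_or_dvd hd with h3 | h3
          · have : q ∣ p := by exact_mod_cast h3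
            rw [(Nat.prime_dvd_prime_iff_eq (hS' q hq) hpp).1 this] at hq
            exact hp hq
          · exact h q hq h3
      constructor
      · rintro ⟨hn, hq⟩
        by_cases hd : (p : ℤ) ∣ n
        · right
          obtain ⟨m, rfl⟩ := hd
          exact ⟨m, ⟨(key m).1 hn, (key2 m).1 hq⟩, rfl⟩
        · left
          exact ⟨hn, hd, hq⟩
      · rintro (⟨hn, hd, hq⟩ | ⟨m, ⟨hm, hq⟩, rfl⟩)
        · exact ⟨hn, hq⟩
        · exact ⟨(key m).2 hm, (key2 m).2 hq⟩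
    have hdisj : Disjoint
        ((Finset.Ioc ⌊x⌋ ⌊x + L⌋).filter (fun n : ℤ => ∀ q ∈ insert p S, ¬ (q : ℤ) ∣ n))
        (((Finset.Ioc ⌊x / p⌋ ⌊x / p + L / p⌋).filter (fun n : ℤ => ∀ q ∈ S, ¬ (q : ℤ) ∣ n)).image
            (fun m : ℤ => (p : ℤ) * m)) := by
      rw [Finset.disjoint_left]
      intro n hn hn2
      rw [mem_filter] at hn
      rw [mem_image] at hn2
      obtain ⟨m, _, rfl⟩ := hn2
      exact hn.2 p (mem_insert_self p S) (dvd_mul_right _ _)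
    have hcard : (((Finset.Ioc ⌊x⌋ ⌊x + L⌋).filter (fun n : ℤ => ∀ q ∈ S, ¬ (q : ℤ) ∣ n)).card : ℝ)
        = (((Finset.Ioc ⌊x⌋ ⌊x + L⌋).filter
            (fun n : ℤ => ∀ q ∈ insert p S, ¬ (q : ℤ) ∣ n)).card : ℝ) +
          (((Finset.Ioc ⌊x / p⌋ ⌊x / p + L / p⌋).filter
            (fun n : ℤ => ∀ q ∈ S, ¬ (q : ℤ) ∣ n)).card : ℝ) := by
      rw [hsplit, card_union_of_disjoint hdisj, card_image_of_injective]
      · push_cast; rfl
      · intro m m' h
        have hp0' : (p : ℤ) ≠ 0 := by exact_mod_cast hpp.ne_zero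
        exact mul_left_cancel₀ hp0' h
    rw [card_insert_of_notMem hp, prod_insert hp]
    set C := (((Finset.Ioc ⌊x⌋ ⌊x + L⌋).filter (fun n : ℤ => ∀ q ∈ S, ¬ (q : ℤ) ∣ n)).card : ℝ)
    set C' := (((Finset.Ioc ⌊x / p⌋ ⌊x / p + L / p⌋).filter
            (fun n : ℤ => ∀ q ∈ S, ¬ (q : ℤ) ∣ n)).card : ℝ)
    set P := ∏ p ∈ S, (1 - 1 / (p : ℝ))
    have e : (((Finset.Ioc ⌊x⌋ ⌊x + L⌋).filter
            (fun n : ℤ => ∀ q ∈ insert p S, ¬ (q : ℤ) ∣ n)).card : ℝ) - L * ((1 - 1 / (p : ℝ)) * P)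
        = (C - L * P) - (C' - L / p * P) := by
      rw [hcard]; ring
    rw [e]
    refine (abs_sub _ _).trans ?_
    rw [pow_succ]
    linarith

theorem exists_coprime_in (D : ℕ) (hD : 0 < D) (x L : ℝ)
    (hL : (4 : ℝ) ^ D.primeFactors.card < L) :
    ∃ n : ℤ, x < n ∧ (n : ℝ) ≤ x + L ∧ IsCoprime n (D : ℤ) := by
  have hL0 : 0 ≤ L := by
    have : (0 : ℝ) < 4 ^ D.primeFactors.card := by positivity
    linarith
  have h1 := count_coprime D.primeFactors (fun p hp => Nat.prime_of_mem_primeFactors hp) x L hL0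
  have h2 : (1 / 2 : ℝ) ^ D.primeFactors.card ≤ ∏ p ∈ D.primeFactors, (1 - 1 / (p : ℝ)) := by
    rw [← Finset.prod_const]
    apply Finset.prod_le_prod
    · intro p _; norm_num
    · intro p hp
      have hp2 : (2 : ℝ) ≤ p := by exact_mod_cast (Nat.prime_of_mem_primeFactors hp).two_le
      have : 1 / (p : ℝ) ≤ 1 / 2 := one_div_le_one_div_of_le (by norm_num) hp2
      linarith
  have h3 : (2 : ℝ) ^ D.primeFactors.card < L * ∏ p ∈ D.primeFactors, (1 - 1 / (p : ℝ)) := by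
    calc (2 : ℝ) ^ D.primeFactors.card = 4 ^ D.primeFactors.card * (1 / 2) ^ D.primeFactors.card := by
          rw [← mul_pow]; norm_num
      _ < L * (1 / 2) ^ D.primeFactors.card := by
          apply mul_lt_mul_of_pos_right hL (by positivity)
      _ ≤ _ := mul_le_mul_of_nonneg_left h2 hL0
  have h4 : (0 : ℝ) < (((Finset.Ioc ⌊x⌋ ⌊x + L⌋).filter
      (fun n : ℤ => ∀ p ∈ D.primeFactors, ¬ (p : ℤ) ∣ n)).card : ℝ) := by
    rw [abs_le] at h1
    linarith [h1.1]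
  have h5 : ((Finset.Ioc ⌊x⌋ ⌊x + L⌋).filter
      (fun n : ℤ => ∀ p ∈ D.primeFactors, ¬ (p : ℤ) ∣ n)).Nonempty := by
    rw [← Finset.card_pos]; exact_mod_cast h4
  obtain ⟨n, hn⟩ := h5
  rw [mem_filter, mem_Ioc, Int.floor_lt, Int.le_floor] at hn
  refine ⟨n, hn.1.1, hn.1.2, ?_⟩
  rw [Int.isCoprime_iff_gcd_eq_one]
  by_contra hg
  obtain ⟨p, hp, hpd⟩ := Nat.exists_prime_and_dvd hg
  have h6 : (p : ℤ) ∣ n := (Int.natCast_dvd_natCast.2 hpd).trans (Int.gcd_dvd_left _ _)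
  have h7 : (p : ℤ) ∣ (D : ℤ) := (Int.natCast_dvd_natCast.2 hpd).trans (Int.gcd_dvd_right _ _)
  have h8 : p ∣ D := by exact_mod_cast h7
  exact hn.2 p (Nat.mem_primeFactors.2 ⟨hp, h8, hD.ne'⟩) h6

theorem omega_bound (γ : ℝ) (hγ : 0 < γ) :
    ∃ C : ℝ, 1 ≤ C ∧ ∀ D : ℕ, 0 < D → (4 : ℝ) ^ D.primeFactors.card ≤ C * (D : ℝ) ^ γ := by
  obtain ⟨B, hB⟩ : ∃ B : ℕ, (4 : ℝ) ≤ (B : ℝ) ^ γ := by
    have h := (tendsto_rpow_atTop hγ).comp tendsto_natCast_atTop_atTop
    obtain ⟨B, hB⟩ := (h.eventually_ge_atTop 4).exists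
    exact ⟨B, hB⟩
  have hB0 : 0 ≤ (B : ℝ) := by positivity
  refine ⟨4 ^ B, one_le_pow₀ (by norm_num), fun D hD => ?_⟩
  have hsplit : (4 : ℝ) ^ D.primeFactors.card
      ≤ ∏ p ∈ D.primeFactors, ((if p < B then (4 : ℝ) else 1) * (p : ℝ) ^ γ) := by
    rw [← Finset.prod_const]
    apply Finset.prod_le_prod
    · intro p _; norm_num
    · intro p hp
      have hp1 : (1 : ℝ) ≤ p := by
        exact_mod_cast (Nat.prime_of_mem_primeFactors hp).one_lt.le
      split_ifs with h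
      · have : (1 : ℝ) ≤ (p : ℝ) ^ γ := Real.one_le_rpow hp1 hγ.le
        linarith
      · push Not at h
        rw [one_mul]
        refine hB.trans (Real.rpow_le_rpow hB0 (by exact_mod_cast h) hγ.le)
  refine hsplit.trans ?_
  rw [Finset.prod_mul_distrib]
  have h1 : ∏ p ∈ D.primeFactors, (if p < B then (4 : ℝ) else 1) ≤ 4 ^ B := by
    rw [Finset.prod_ite, Finset.prod_const_one, mul_one, Finset.prod_const]
    apply pow_le_pow_right₀ (by norm_num)
    calc (D.primeFactors.filter (fun p => p < B)).card ≤ (Finset.range B).card := by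
          apply Finset.card_le_card
          intro p hp
          rw [mem_filter] at hp
          exact mem_range.2 hp.2
      _ = B := card_range B
  have h2 : ∏ p ∈ D.primeFactors, (p : ℝ) ^ γ ≤ (D : ℝ) ^ γ := by
    rw [Real.finsetProd_rpow _ _ (fun p _ => by positivity)]
    apply Real.rpow_le_rpow (Finset.prod_nonneg (fun p _ => by positivity)) _ hγ.le
    have : ∏ p ∈ D.primeFactors, p ≤ D := Nat.le_of_dvd hD (Nat.prod_primeFactors_dvd D)
    rw [← Nat.cast_prod]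
    exact_mod_cast this
  have h3 : (0 : ℝ) ≤ ∏ p ∈ D.primeFactors, (p : ℝ) ^ γ :=
    Finset.prod_nonneg (fun p _ => by positivity)
  exact mul_le_mul h1 h2 h3 (by positivity)

/-! ### The next relation vector and the next rational point -/

/-- The next relation vector. -/
theorem next_rel (a b D : ℕ) (ha : 0 < a) (hb : 0 < b) (hab : Nat.Coprime a b) (hD : 0 < D)
    (V : ℕ) (hV : (4 : ℝ) ^ D.primeFactors.card < 2 * V) (u : ℤ) (hu : IsCoprime u (D : ℤ)) :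
    ∃ (a' b' : ℕ) (u' : ℤ), 0 < a' ∧ 0 < b' ∧ Nat.Coprime a' b' ∧ a * b' = D + b * a' ∧
      a * V ≤ a' ∧ a' ≤ 3 * a * V ∧ IsCoprime u' (D : ℤ) ∧
      (D : ℤ) ∣ b * u - b' * u' ∧ (D : ℤ) ∣ a * u - a' * u' := by
  have hV0 : 0 < V := by
    by_contra h
    have : V = 0 := by omega
    rw [this] at hV
    have h4 : (0 : ℝ) < 4 ^ D.primeFactors.card := by positivity
    simp at hV
    linarith
  have hcop : IsCoprime (a : ℤ) (b : ℤ) := Nat.isCoprime_iff_coprime.2 hab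
  obtain ⟨d, c', hdc⟩ := hcop
  -- a d - b c = 1 with c = -c'
  obtain ⟨c, hc⟩ : ∃ c : ℤ, c = -c' := ⟨_, rfl⟩
  have hdet : (a : ℤ) * d - b * c = 1 := by rw [hc]; linarith
  have ha' : (0 : ℝ) < a := by exact_mod_cast ha
  obtain ⟨M, hM1, hM2, hMD⟩ := exists_coprime_in D hD (V - D * c / a) (2 * V) hV
  -- the new vector
  set A : ℤ := M * a + D * c with hA
  set Bz : ℤ := M * b + D * d with hB
  have hAlow : (a : ℤ) * V < A := by
    have h1 : ((a : ℝ)) * V < M * a + D * c := by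
      have h2 : (V : ℝ) - D * c / a < M := hM1
      have h3 : (a : ℝ) * (V - D * c / a) < a * M := mul_lt_mul_of_pos_left h2 ha'
      have h4 : (a : ℝ) * (V - D * c / a) = a * V - D * c := by field_simp
      rw [h4] at h3
      linarith
    exact_mod_cast h1
  have hAup : A ≤ 3 * a * V := by
    have h1 : M * a + D * c ≤ 3 * (a : ℝ) * V := by
      have h2 : (M : ℝ) ≤ V - D * c / a + 2 * V := hM2
      have h3 : (a : ℝ) * M ≤ a * (V - D * c / a + 2 * V) := mul_le_mul_of_nonneg_left h2 ha'.le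
      have h4 : (a : ℝ) * (V - D * c / a + 2 * V) = 3 * a * V - D * c := by field_simp; ring
      rw [h4] at h3
      linarith
    exact_mod_cast h1
  have hAB : (a : ℤ) * Bz = D + b * A := by
    rw [hA, hB]; linear_combination (D : ℤ) * hdet
  have hA0 : 0 < A := lt_of_le_of_lt (by positivity) hAlow
  have hB0 : 0 < Bz := by
    have h1 : 0 < (a : ℤ) * Bz := by
      rw [hAB]
      have : (0 : ℤ) < D := by exact_mod_cast hD
      positivity
    exact pos_of_mul_pos_right h1 (by positivity)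
  obtain ⟨a', ha'e⟩ : ∃ a' : ℕ, (a' : ℤ) = A := ⟨A.toNat, Int.toNat_of_nonneg hA0.le⟩
  obtain ⟨b', hb'e⟩ : ∃ b' : ℕ, (b' : ℤ) = Bz := ⟨Bz.toNat, Int.toNat_of_nonneg hB0.le⟩
  -- the new numerator
  obtain ⟨s, t, hst⟩ := hMD
  have hcopAB : IsCoprime A Bz := by
    -- M and D are integer combinations of A and Bz
    have e1 : A * d - Bz * c = M := by rw [hA, hB]; linear_combination M * hdet
    have e2 : (a : ℤ) * Bz - b * A = D := by rw [hAB]; ring
    refine ⟨s * d - t * b, -s * c + t * a, ?_⟩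
    linear_combination s * e1 + t * e2 + hst
  refine ⟨a', b', s * u, by omega, by omega, ?_, ?_, ?_, ?_, ?_, ?_, ?_⟩
  · rw [← Nat.isCoprime_iff_coprime, ha'e, hb'e]; exact hcopAB
  · have : ((a * b' : ℕ) : ℤ) = ((D + b * a' : ℕ) : ℤ) := by
      push_cast; rw [ha'e, hb'e]; exact hAB
    exact_mod_cast this
  · have : ((a * V : ℕ) : ℤ) ≤ ((a' : ℕ) : ℤ) := by push_cast; rw [ha'e]; exact hAlow.le
    exact_mod_cast this
  · have : ((a' : ℕ) : ℤ) ≤ ((3 * a * V : ℕ) : ℤ) := by push_cast; rw [ha'e]; exact hAup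
    exact_mod_cast this
  · have hs : IsCoprime s (D : ℤ) := ⟨M, t, by linarith⟩
    exact hs.mul_left hu
  · rw [hb'e, hB]
    refine ⟨b * u * t - d * (s * u), ?_⟩
    linear_combination (-(b : ℤ) * u) * hst
  · rw [ha'e, hA]
    refine ⟨a * u * t - c * (s * u), ?_⟩
    linear_combination (-(a : ℤ) * u) * hst

/-- One stage of the approximation, with control of the size of the denominator. -/
theorem step' (ρ : ℚ) (A Y : ℕ) (hA : 2 ≤ A) (hY : 64 * A * ρ.den ^ 2 ≤ Y) : ∃ ρ' : ℚ,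
    Y ≤ 8 * ρ'.den ∧ ρ'.den ≤ Y ∧
    |(ρ' : ℝ) - ρ| ≤ 2 / (A * (ρ.den : ℝ) ^ 2) ∧
    1 / (8 * A * (ρ.den : ℝ) ^ 2) ≤ |(ρ' : ℝ) - ρ| ∧
    ∀ j : ℕ, 0 < j → ∀ p : ℤ,
      min (1 / (8 * (j : ℝ))) (1 / (4 * A * ρ.den)) - j / (ρ'.den : ℝ) ^ 2 ≤ |j * (ρ' : ℝ) - p| := by
  have hD : 0 < ρ.den := ρ.den_pos
  obtain ⟨v, w, hw, hdet⟩ : ∃ (v : ℤ) (w : ℕ), w ≤ ρ.den ∧ ρ.num * w - v * ρ.den = 1 := by
    have hc : IsCoprime ρ.num (ρ.den : ℤ) := by
      rw [Int.isCoprime_iff_gcd_eq_one]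
      exact ρ.reduced
    obtain ⟨a, b, hab⟩ := hc
    have hDZ : (0 : ℤ) < ρ.den := by exact_mod_cast hD
    refine ⟨-b - ρ.num * (a / ρ.den), (a % ρ.den).toNat, ?_, ?_⟩
    · have := Int.emod_lt_of_pos a hDZ
      omega
    · have h1 : ((a % ρ.den).toNat : ℤ) = a % ρ.den := Int.toNat_of_nonneg (Int.emod_nonneg _ hDZ.ne')
      rw [h1]
      have h2 := Int.emod_add_mul_ediv a ρ.den
      linear_combination hab + ρ.num * h2
  set u := ρ.num with hu
  set D := ρ.den with hDdef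
  have hD' : (1 : ℝ) ≤ D := by exact_mod_cast hD
  have hA' : (2 : ℝ) ≤ A := by exact_mod_cast hA
  have hY' : 64 * (A : ℝ) * (D : ℝ) ^ 2 ≤ Y := by exact_mod_cast hY
  have hAD : (2 : ℝ) ≤ A * (D : ℝ) ^ 2 := by nlinarith
  have hY0 : 0 < Y := by
    have : (0 : ℝ) < Y := by linarith
    exact_mod_cast this
  obtain ⟨r, hr, hrden⟩ := Real.exists_rat_abs_sub_le_and_den_le (al u v D w A) hY0
  have hrd : (1 : ℝ) ≤ r.den := by exact_mod_cast r.den_pos
  -- lower bound for the denominator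
  have hlow := al_lower u v D w A hD hw hA hdet r.den r.den_pos r.num
  have hle : |(r.den : ℝ) * al u v D w A - r.num| ≤ 1 / (Y + 1) := by
    have h1 : (r.den : ℝ) * (r : ℝ) = (r.num : ℝ) := by
      exact_mod_cast Rat.den_mul_eq_num r
    rw [← h1, ← mul_sub, abs_mul, abs_of_nonneg (by positivity : (0 : ℝ) ≤ r.den)]
    calc (r.den : ℝ) * |al u v D w A - r| ≤ r.den * (1 / ((Y + 1) * r.den)) := by gcongr
      _ = 1 / (Y + 1) := by field_simp
  have hden8 : (Y : ℝ) + 1 ≤ 8 * r.den := by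
    have h2 : 1 / ((Y : ℝ) + 1) < 1 / (4 * A * D) := by
      apply one_div_lt_one_div_of_lt (by positivity)
      nlinarith
    rcases le_total (1 / (8 * (r.den : ℝ))) (1 / (4 * A * D)) with h3 | h3
    · rw [min_eq_left h3] at hlow
      have h4 := hlow.trans hle
      exact (one_div_le_one_div (by positivity) (by positivity)).1 h4
    · rw [min_eq_right h3] at hlow
      linarith
  have hrad : |al u v D w A - r| ≤ 1 / (r.den : ℝ) ^ 2 := by
    refine hr.trans ?_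
    apply one_div_le_one_div_of_le (by positivity)
    rw [pow_two]
    apply mul_le_mul_of_nonneg_right _ (by positivity)
    have : (r.den : ℝ) ≤ Y := by exact_mod_cast hrden
    linarith
  have hρ : (ρ : ℝ) = u / D := by
    have : ρ = (u : ℚ) / D := (Rat.num_div_den ρ).symm
    rw [this]; push_cast; rfl
  obtain ⟨d1, d2⟩ := al_dist u v D w A hD hw hA hdet
  have hsm : 1 / (r.den : ℝ) ^ 2 ≤ 1 / (8 * A * (D : ℝ) ^ 2) := by
    apply one_div_le_one_div_of_le (by positivity)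
    have : 8 * A * (D : ℝ) ^ 2 ≤ r.den := by linarith
    nlinarith
  set X : ℝ := 1 / (A * (D : ℝ) ^ 2) with hX
  have hX0 : 0 < X := by positivity
  have g1 : 1 / (8 * A * (D : ℝ) ^ 2) = X / 8 := by rw [hX]; field_simp
  have g2 : 1 / (4 * A * (D : ℝ) ^ 2) = X / 4 := by rw [hX]; field_simp
  have g3 : 2 / (A * (D : ℝ) ^ 2) = 2 * X := by rw [hX]; field_simp
  rw [g1] at hsm
  rw [g2] at d2
  have hr2 := hrad.trans hsm
  refine ⟨r, ?_, hrden, ?_, ?_, ?_⟩
  · have : (Y : ℝ) ≤ 8 * r.den := by linarith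
    exact_mod_cast this
  · rw [hρ, g3]
    have e : (r : ℝ) - u / D = (al u v D w A - u / D) - (al u v D w A - r) := by ring
    rw [e]
    refine (abs_sub _ _).trans ?_
    linarith
  · rw [hρ, g1]
    have e : al u v D w A - u / D = ((r : ℝ) - u / D) + (al u v D w A - r) := by ring
    rw [e] at d2
    have := abs_add_le ((r : ℝ) - u / D) (al u v D w A - r)
    linarith
  · intro j hj p
    have h1 := al_lower u v D w A hD hw hA hdet j hj p
    have e : j * al u v D w A - p = (j * (r : ℝ) - p) + j * (al u v D w A - r) := by ring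
    rw [e] at h1
    have h2 := abs_add_le (j * (r : ℝ) - p) (j * (al u v D w A - r))
    have h3 : |(j : ℝ) * (al u v D w A - r)| ≤ j / (r.den : ℝ) ^ 2 := by
      rw [abs_mul, abs_of_nonneg (by positivity : (0 : ℝ) ≤ j), div_eq_mul_one_div]
      gcongr
    linarith

/-! ### The sequences -/

/-- Slowly growing size. -/
noncomputable def sl (γ : ℝ) (b : ℕ) : ℕ := ⌈(b : ℝ) ^ γ⌉₊

/-- Invariants of one stage. -/
structure Good (γ K : ℝ) (a b : ℕ) (ρ : ℚ) : Prop where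
  a_pos : 0 < a
  b_pos : 0 < b
  cop : Nat.Coprime a b
  a_le : (a : ℝ) ≤ ((b : ℝ) ^ γ) ^ 4
  g_ge : K ≤ (b : ℝ) ^ γ
  den_low : a * b ^ 3 * (sl γ b) ^ 2 ≤ ρ.den
  den_up : ρ.den ≤ 8 * a * b ^ 3 * (sl γ b) ^ 2

/-- Relation between consecutive stages. -/
structure Nxt (γ : ℝ) (a b : ℕ) (ρ : ℚ) (a' b' : ℕ) (ρn : ℚ) (A : ℕ) (ρ' : ℚ) : Prop where
  wedge : a * b' = ρ.den + b * a'
  a_low : a * (sl γ b) ^ 2 ≤ a'
  a_up : a' ≤ 3 * a * (sl γ b) ^ 2
  b_low : b ^ 3 * (sl γ b) ^ 2 ≤ b'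
  b_up : b' ≤ 11 * b ^ 3 * (sl γ b) ^ 2
  q_low : sl γ b * b' ^ 2 ≤ A * ρ.den
  q_up : A * ρ.den ≤ 2 * (sl γ b * b' ^ 2)
  A_two : 2 ≤ A
  den_eq : ρ'.den = ρ.den
  int_b : ∃ z : ℤ, (b : ℝ) * ρ - b' * ρ' = z
  int_a : ∃ z : ℤ, (a : ℝ) * ρ - a' * ρ' = z
  dist_up : |(ρn : ℝ) - ρ'| ≤ 2 / (A * (ρ.den : ℝ) ^ 2)
  dist_low : 1 / (8 * A * (ρ.den : ℝ) ^ 2) ≤ |(ρn : ℝ) - ρ'|
  lower : ∀ j : ℕ, 0 < j → ∀ p : ℤ,
      min (1 / (8 * (j : ℝ))) (1 / (4 * A * ρ.den)) - j / (ρn.den : ℝ) ^ 2 ≤ |j * (ρn : ℝ) - p|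

theorem sl_low (γ : ℝ) (b : ℕ) : (b : ℝ) ^ γ ≤ sl γ b := Nat.le_ceil _

theorem sl_up (γ : ℝ) (b : ℕ) (h : 1 ≤ (b : ℝ) ^ γ) : (sl γ b : ℝ) ≤ 2 * (b : ℝ) ^ γ := by
  unfold sl
  have := Nat.ceil_lt_add_one (a := (b : ℝ) ^ γ) (by linarith)
  linarith

theorem b_ge_pow {γ : ℝ} (hγ : 0 < γ) (hγ2 : γ ≤ 1 / 100) (b : ℕ) (hb : 0 < b) :
    ((b : ℝ) ^ γ) ^ 100 ≤ b := by
  have hb1 : (1 : ℝ) ≤ b := by exact_mod_cast hb
  rw [← Real.rpow_natCast, ← Real.rpow_mul (by linarith)]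
  calc (b : ℝ) ^ (γ * (100 : ℕ)) ≤ (b : ℝ) ^ (1 : ℝ) := by
        apply Real.rpow_le_rpow_of_exponent_le hb1
        push_cast
        linarith
    _ = b := Real.rpow_one _

theorem exists_next {γ K : ℝ} (hγ : 0 < γ) (hγ2 : γ ≤ 1 / 100) (hK : 16 ≤ K)
    (hC : ∀ D : ℕ, 0 < D → (4 : ℝ) ^ D.primeFactors.card ≤ K * (D : ℝ) ^ (γ / 4))
    (a b : ℕ) (ρ : ℚ) (h : Good γ K a b ρ) :
    ∃ (a' b' : ℕ) (ρn : ℚ) (A : ℕ) (ρ' : ℚ), Good γ K a' b' ρn ∧ Nxt γ a b ρ a' b' ρn A ρ' := by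
  set g : ℝ := (b : ℝ) ^ γ with hg
  set S : ℕ := sl γ b with hS
  have hg16 : 16 ≤ g := hK.trans h.g_ge
  have hS1 : g ≤ S := sl_low γ b
  have hS2 : (S : ℝ) ≤ 2 * g := sl_up γ b (by rw [← hg]; linarith)
  have hb100 : g ^ 100 ≤ b := b_ge_pow hγ hγ2 b h.b_pos
  have hSn : 16 ≤ S := by
    have : (16 : ℝ) ≤ S := by linarith
    exact_mod_cast this
  have ha1 : (1 : ℝ) ≤ a := by exact_mod_cast h.a_pos
  have hb1 : (1 : ℝ) ≤ b := by exact_mod_cast h.b_pos
  have ha4 : (a : ℝ) ≤ g ^ 4 := h.a_le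
  -- size of b compared with powers of g
  have hpow : ∀ n : ℕ, n ≤ 100 → g ^ n ≤ b := by
    intro n hn
    exact (pow_le_pow_right₀ (by linarith) hn).trans hb100
  -- size of D
  set D : ℕ := ρ.den with hD
  have hD0 : 0 < D := ρ.den_pos
  have hDup : (D : ℝ) ≤ (b : ℝ) ^ (4 : ℕ) := by
    have h1 : (D : ℝ) ≤ 8 * a * (b : ℝ) ^ 3 * (S : ℝ) ^ 2 := by exact_mod_cast h.den_up
    have h2 : (S : ℝ) ^ 2 ≤ 4 * g ^ 2 := by
      calc (S : ℝ) ^ 2 ≤ (2 * g) ^ 2 := by gcongr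
        _ = 4 * g ^ 2 := by ring
    calc (D : ℝ) ≤ 8 * a * (b : ℝ) ^ 3 * (S : ℝ) ^ 2 := h1
      _ ≤ 8 * g ^ 4 * (b : ℝ) ^ 3 * (4 * g ^ 2) := by gcongr
      _ = (32 * g ^ 6) * (b : ℝ) ^ 3 := by ring
      _ ≤ (g ^ 8) * (b : ℝ) ^ 3 := by
          gcongr
          calc 32 * g ^ 6 ≤ (g * g) * g ^ 6 := by
                apply mul_le_mul_of_nonneg_right _ (by positivity)
                nlinarith
            _ = g ^ 8 := by ring
      _ ≤ b * (b : ℝ) ^ 3 := by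
          gcongr
          exact hpow 8 (by norm_num)
      _ = (b : ℝ) ^ (4 : ℕ) := by ring
  have hV : (4 : ℝ) ^ D.primeFactors.card < 2 * ((S ^ 2 : ℕ) : ℝ) := by
    have h1 : (D : ℝ) ^ (γ / 4) ≤ g := by
      calc (D : ℝ) ^ (γ / 4) ≤ ((b : ℝ) ^ (4 : ℕ)) ^ (γ / 4) :=
            Real.rpow_le_rpow (by positivity) hDup (by positivity)
        _ = g := by
            rw [hg, ← Real.rpow_natCast, ← Real.rpow_mul (by positivity)]
            congr 1
            push_cast; ring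
    have h2 := hC D hD0
    have h3 : K ≤ g := h.g_ge
    push_cast
    calc (4 : ℝ) ^ D.primeFactors.card ≤ K * (D : ℝ) ^ (γ / 4) := h2
      _ ≤ g * g := mul_le_mul h3 h1 (by positivity) (by linarith)
      _ ≤ (S : ℝ) * S := mul_le_mul hS1 hS1 (by linarith) (by linarith)
      _ < 2 * (S : ℝ) ^ 2 := by
          have : (0 : ℝ) < S := by linarith
          nlinarith
  have hcop : IsCoprime ρ.num (D : ℤ) := by
    rw [Int.isCoprime_iff_gcd_eq_one]
    exact ρ.reduced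
  obtain ⟨a', b', u', ha'0, hb'0, hcop', hwedge, halow, haup, hu', hdb, hda⟩ :=
    next_rel a b D h.a_pos h.b_pos h.cop hD0 (S ^ 2) hV ρ.num hcop
  have hred : u'.natAbs.Coprime D := by
    have := Int.isCoprime_iff_gcd_eq_one.1 hu'
    exact this
  set ρ' : ℚ := ⟨u', D, hD0.ne', hred⟩ with hρ'
  have hρ'den : ρ'.den = D := rfl
  have hρ'num : ρ'.num = u' := rfl
  -- sizes of a' and b'
  have ha'1 : (1 : ℝ) ≤ a' := by exact_mod_cast ha'0
  have hDlow : (a : ℝ) * (b : ℝ) ^ 3 * (S : ℝ) ^ 2 ≤ D := by exact_mod_cast h.den_low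
  have hDupR : (D : ℝ) ≤ 8 * a * (b : ℝ) ^ 3 * (S : ℝ) ^ 2 := by exact_mod_cast h.den_up
  have hwedgeR : (a : ℝ) * b' = D + b * a' := by exact_mod_cast hwedge
  have halowR : (a : ℝ) * (S : ℝ) ^ 2 ≤ a' := by exact_mod_cast halow
  have haupR : (a' : ℝ) ≤ 3 * a * (S : ℝ) ^ 2 := by exact_mod_cast haup
  have hblow : (b : ℝ) ^ 3 * (S : ℝ) ^ 2 ≤ b' := by
    have h1 : (a : ℝ) * ((b : ℝ) ^ 3 * (S : ℝ) ^ 2) ≤ a * b' := by
      rw [hwedgeR]
      have : 0 ≤ (b : ℝ) * a' := by positivity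
      linarith
    exact le_of_mul_le_mul_left h1 (by linarith)
  have hbup : (b' : ℝ) ≤ 11 * (b : ℝ) ^ 3 * (S : ℝ) ^ 2 := by
    have h1 : (a : ℝ) * b' ≤ a * (11 * (b : ℝ) ^ 3 * (S : ℝ) ^ 2) := by
      rw [hwedgeR]
      have h2 : (b : ℝ) * a' ≤ b * (3 * a * (S : ℝ) ^ 2) := by gcongr
      have h3 : (b : ℝ) ≤ (b : ℝ) ^ 3 := by
        calc (b : ℝ) = b ^ 1 := (pow_one _).symm
          _ ≤ b ^ 3 := pow_le_pow_right₀ hb1 (by norm_num)
      have h4 : (b : ℝ) * (3 * a * (S : ℝ) ^ 2) ≤ (b : ℝ) ^ 3 * (3 * a * (S : ℝ) ^ 2) := by gcongr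
      linarith
    exact le_of_mul_le_mul_left h1 (by linarith)
  -- the new g
  set g' : ℝ := (b' : ℝ) ^ γ with hg'
  set S' : ℕ := sl γ b' with hS'
  have hb3 : (b : ℝ) ^ 3 ≤ b' := by
    refine le_trans ?_ hblow
    have : (1 : ℝ) ≤ (S : ℝ) ^ 2 := by
      have : (1 : ℝ) ≤ S := by linarith
      nlinarith
    nlinarith [pow_pos (by linarith : (0 : ℝ) < b) 3]
  have hg3 : g ^ 3 ≤ g' := by
    rw [hg, hg']
    calc ((b : ℝ) ^ γ) ^ 3 = ((b : ℝ) ^ 3) ^ γ := by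
          rw [← Real.rpow_natCast, ← Real.rpow_mul (by positivity), ← Real.rpow_natCast,
            ← Real.rpow_mul (by positivity)]
          congr 1; ring
      _ ≤ (b' : ℝ) ^ γ := Real.rpow_le_rpow (by positivity) hb3 hγ.le
  have hgg' : g ≤ g' := by
    refine le_trans ?_ hg3
    calc g = g ^ 1 := (pow_one _).symm
      _ ≤ g ^ 3 := pow_le_pow_right₀ (by linarith) (by norm_num)
  have hS'1 : g' ≤ S' := sl_low γ b'
  have hSn' : 16 ≤ S' := by
    have : (16 : ℝ) ≤ S' := by linarith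
    exact_mod_cast this
  -- A
  have hDab : D ≤ a * b' := by rw [hwedge]; omega
  have hbb' : (b : ℝ) ≤ b' := by
    refine le_trans ?_ hb3
    calc (b : ℝ) = b ^ 1 := (pow_one _).symm
      _ ≤ b ^ 3 := pow_le_pow_right₀ hb1 (by norm_num)
  have hab' : a ≤ b' := by
    have : (a : ℝ) ≤ b' := ha4.trans ((hpow 4 (by norm_num)).trans hbb')
    exact_mod_cast this
  have hDSb : D ≤ S * b' ^ 2 := by
    calc D ≤ a * b' := hDab
      _ ≤ b' * b' := Nat.mul_le_mul_right _ hab'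
      _ = 1 * b' ^ 2 := by ring
      _ ≤ S * b' ^ 2 := Nat.mul_le_mul_right _ (by omega)
  set A : ℕ := S * b' ^ 2 / D + 1 with hA
  have hA2 : 2 ≤ A := by
    have : 1 ≤ S * b' ^ 2 / D := (Nat.one_le_div_iff hD0).2 hDSb
    omega
  have hqlow : S * b' ^ 2 ≤ A * D := by
    have := Nat.lt_div_mul_add hD0 (a := S * b' ^ 2)
    rw [hA, add_mul, one_mul]
    omega
  have hqup : A * D ≤ 2 * (S * b' ^ 2) := by
    have := Nat.div_mul_le_self (S * b' ^ 2) D
    rw [hA, add_mul, one_mul]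
    omega
  -- Y
  set Y : ℕ := 8 * a' * b' ^ 3 * S' ^ 2 with hYdef
  have hkey : 16 * (S * a) ≤ S' ^ 2 * a' := by
    calc 16 * (S * a) ≤ S' * (S * a) := Nat.mul_le_mul_right _ hSn'
      _ ≤ (S' * S') * (a * S ^ 2) := by
          have h1 : S' ≤ S' * S' := Nat.le_mul_self S'
          have h2 : S * a ≤ a * S ^ 2 := by
            calc S * a = a * S := Nat.mul_comm _ _
              _ ≤ a * S ^ 2 := Nat.mul_le_mul_left _ (by nlinarith)
          exact Nat.mul_le_mul h1 h2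
      _ ≤ S' ^ 2 * a' := by
          rw [pow_two S']
          exact Nat.mul_le_mul_left _ halow
  have hY : 64 * A * ρ'.den ^ 2 ≤ Y := by
    rw [hρ'den, hYdef]
    calc 64 * A * D ^ 2 = 64 * (A * D) * D := by ring
      _ ≤ 64 * (2 * (S * b' ^ 2)) * (a * b') := by gcongr
      _ = 8 * (16 * (S * a)) * b' ^ 3 := by ring
      _ ≤ 8 * (S' ^ 2 * a') * b' ^ 3 := Nat.mul_le_mul_right _ (Nat.mul_le_mul_left _ hkey)
      _ = 8 * a' * b' ^ 3 * S' ^ 2 := by ring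
  obtain ⟨ρn, hn1, hn2, hn3, hn4, hn5⟩ := step' ρ' A Y hA2 hY
  rw [hρ'den] at hn3 hn4 hn5
  refine ⟨a', b', ρn, A, ρ', ⟨ha'0, hb'0, hcop', ?_, ?_, ?_, ?_⟩,
    ⟨hwedge, halow, haup, by exact_mod_cast hblow, by exact_mod_cast hbup, hqlow, hqup, hA2,
      hρ'den, ?_, ?_, hn3, hn4, hn5⟩⟩
  · -- a' bound
    calc (a' : ℝ) ≤ 3 * a * (S : ℝ) ^ 2 := haupR
      _ ≤ 3 * g ^ 4 * (2 * g) ^ 2 := by gcongr
      _ = 12 * g ^ 6 := by ring
      _ ≤ g * g ^ 6 := by
          apply mul_le_mul_of_nonneg_right _ (by positivity)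
          linarith
      _ = g ^ 7 := by ring
      _ ≤ g ^ 12 := pow_le_pow_right₀ (by linarith) (by norm_num)
      _ = (g ^ 3) ^ 4 := by ring
      _ ≤ g' ^ 4 := by gcongr
  · exact h.g_ge.trans hgg'
  · have h1 : 8 * (a' * b' ^ 3 * S' ^ 2) ≤ 8 * ρn.den := by
      calc 8 * (a' * b' ^ 3 * S' ^ 2) = Y := by rw [hYdef]; ring
        _ ≤ _ := hn1
    exact Nat.le_of_mul_le_mul_left h1 (by norm_num)
  · exact hn2
  · obtain ⟨c, hc⟩ := hdb
    refine ⟨c, ?_⟩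
    have hDr : (D : ℝ) ≠ 0 := by exact_mod_cast hD0.ne'
    have h1 : (D : ℝ) * (ρ : ℝ) = ρ.num := by exact_mod_cast Rat.den_mul_eq_num ρ
    have h2 : (D : ℝ) * (ρ' : ℝ) = u' := by exact_mod_cast Rat.den_mul_eq_num ρ'
    have h3 : (b : ℝ) * ρ.num - b' * u' = D * c := by exact_mod_cast hc
    apply mul_left_cancel₀ hDr
    linear_combination (b : ℝ) * h1 - (b' : ℝ) * h2 + h3
  · obtain ⟨c, hc⟩ := hda
    refine ⟨c, ?_⟩
    have hDr : (D : ℝ) ≠ 0 := by exact_mod_cast hD0.ne'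
    have h1 : (D : ℝ) * (ρ : ℝ) = ρ.num := by exact_mod_cast Rat.den_mul_eq_num ρ
    have h2 : (D : ℝ) * (ρ' : ℝ) = u' := by exact_mod_cast Rat.den_mul_eq_num ρ'
    have h3 : (a : ℝ) * ρ.num - a' * u' = D * c := by exact_mod_cast hc
    apply mul_left_cancel₀ hDr
    linear_combination (a : ℝ) * h1 - (a' : ℝ) * h2 + h3

/-- Existence of the sequences. -/
theorem exists_seq {γ : ℝ} (hγ : 0 < γ) (hγ2 : γ ≤ 1 / 100) :
    ∃ (K : ℝ) (a b A : ℕ → ℕ) (ρ ρ' : ℕ → ℚ), 16 ≤ K ∧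
      (∀ k, Good γ K (a k) (b k) (ρ k)) ∧
      ∀ k, Nxt γ (a k) (b k) (ρ k) (a (k + 1)) (b (k + 1)) (ρ (k + 1)) (A k) (ρ' k) := by
  obtain ⟨C, hC1, hC⟩ := omega_bound (γ / 4) (by positivity)
  set K : ℝ := max 16 C with hK
  have hK16 : 16 ≤ K := le_max_left _ _
  have hCK : ∀ D : ℕ, 0 < D → (4 : ℝ) ^ D.primeFactors.card ≤ K * (D : ℝ) ^ (γ / 4) := by
    intro D hD
    refine (hC D hD).trans ?_
    apply mul_le_mul_of_nonneg_right (le_max_right _ _) (by positivity)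
  -- initial stage
  obtain ⟨b0, hb0, hb0'⟩ : ∃ b0 : ℕ, 0 < b0 ∧ K ≤ (b0 : ℝ) ^ γ := by
    have h := (tendsto_rpow_atTop hγ).comp tendsto_natCast_atTop_atTop
    obtain ⟨b0, hb0, hb0'⟩ := ((h.eventually_ge_atTop K).and
      (Filter.eventually_gt_atTop 0)).exists
    exact ⟨b0, hb0', hb0⟩
  have hS0 : 0 < sl γ b0 := by
    have : (0 : ℝ) < sl γ b0 := by
      have := sl_low γ b0
      linarith
    exact_mod_cast this
  have hD0 : 0 < 1 * b0 ^ 3 * (sl γ b0) ^ 2 := by positivity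
  have hG0 : Good γ K 1 b0 (⟨1, 1 * b0 ^ 3 * (sl γ b0) ^ 2, hD0.ne', by simp⟩ : ℚ) := by
    refine ⟨one_pos, hb0, by simp, ?_, hb0', le_refl _, ?_⟩
    · have : (1 : ℝ) ≤ (b0 : ℝ) ^ γ := by linarith
      push_cast
      exact one_le_pow₀ this
    · change 1 * b0 ^ 3 * (sl γ b0) ^ 2 ≤ 8 * 1 * b0 ^ 3 * (sl γ b0) ^ 2
      nlinarith
  -- dependent choice
  let T := {s : ℕ × ℕ × ℚ // Good γ K s.1 s.2.1 s.2.2}
  have hstep : ∀ s : T, ∃ s' : T, ∃ (A : ℕ) (ρ' : ℚ),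
      Nxt γ s.1.1 s.1.2.1 s.1.2.2 s'.1.1 s'.1.2.1 s'.1.2.2 A ρ' := by
    rintro ⟨⟨a, b, ρ⟩, hs⟩
    obtain ⟨a', b', ρn, A, ρ', h1, h2⟩ := exists_next hγ hγ2 hK16 hCK a b ρ hs
    exact ⟨⟨(a', b', ρn), h1⟩, A, ρ', h2⟩
  choose f hf using hstep
  choose Af hAf using hf
  choose rf hrf using hAf
  let s0 : T := ⟨(1, b0, ⟨1, 1 * b0 ^ 3 * (sl γ b0) ^ 2, hD0.ne', by simp⟩), hG0⟩
  let sq : ℕ → T := fun k => f^[k] s0
  have hsq : ∀ k, sq (k + 1) = f (sq k) := fun k => Function.iterate_succ_apply' f k s0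
  refine ⟨K, fun k => (sq k).1.1, fun k => (sq k).1.2.1, fun k => Af (sq k),
    fun k => (sq k).1.2.2, fun k => rf (sq k), hK16, fun k => (sq k).2, fun k => ?_⟩
  have := hrf (sq k)
  rw [← hsq k] at this
  exact this

/-! ### The limit point -/

/-- All the data of the construction. -/
structure Dat (γ K : ℝ) where
  a : ℕ → ℕ
  b : ℕ → ℕ
  A : ℕ → ℕ
  ρ : ℕ → ℚ
  ρ' : ℕ → ℚ
  hγ : 0 < γ
  hγ2 : γ ≤ 1 / 100
  hK : 16 ≤ K
  good : ∀ k, Good γ K (a k) (b k) (ρ k)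
  nxt : ∀ k, Nxt γ (a k) (b k) (ρ k) (a (k + 1)) (b (k + 1)) (ρ (k + 1)) (A k) (ρ' k)

theorem exists_dat {γ : ℝ} (hγ : 0 < γ) (hγ2 : γ ≤ 1 / 100) : ∃ K : ℝ, Nonempty (Dat γ K) := by
  obtain ⟨K, a, b, A, ρ, ρ', h1, h2, h3⟩ := exists_seq hγ hγ2
  exact ⟨K, ⟨⟨a, b, A, ρ, ρ', hγ, hγ2, h1, h2, h3⟩⟩⟩

section

variable {γ K : ℝ} (d : Dat γ K)

/-- Denominators. -/
def Dat.D (k : ℕ) : ℕ := (d.ρ k).den

/-- Slow sizes. -/
noncomputable def Dat.S (k : ℕ) : ℕ := sl γ (d.b k)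

/-- The slow power. -/
noncomputable def Dat.g (k : ℕ) : ℝ := (d.b k : ℝ) ^ γ

/-- The products `A D`. -/
noncomputable def Dat.Q (k : ℕ) : ℝ := (d.A k : ℝ) * d.D k

theorem g_ge (k : ℕ) : 16 ≤ d.g k := d.hK.trans (d.good k).g_ge

theorem S_low (k : ℕ) : d.g k ≤ d.S k := sl_low γ (d.b k)

theorem S_up (k : ℕ) : (d.S k : ℝ) ≤ 2 * d.g k := by
  apply sl_up
  have := g_ge d k
  unfold Dat.g at this
  linarith

theorem S_ge (k : ℕ) : (16 : ℝ) ≤ d.S k := (g_ge d k).trans (S_low d k)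

theorem g_pow (k n : ℕ) (hn : n ≤ 100) : d.g k ^ n ≤ d.b k := by
  have h1 := b_ge_pow d.hγ d.hγ2 (d.b k) (d.good k).b_pos
  have h2 := g_ge d k
  refine le_trans ?_ h1
  exact pow_le_pow_right₀ (by linarith) hn

theorem a_one (k : ℕ) : (1 : ℝ) ≤ d.a k := by exact_mod_cast (d.good k).a_pos

theorem a_up (k : ℕ) : (d.a k : ℝ) ≤ d.g k ^ 4 := (d.good k).a_le

theorem b_big (k : ℕ) : (1000000 : ℝ) ≤ d.b k := by
  have h1 := g_pow d k 5 (by norm_num)
  have h2 := g_ge d k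
  have h3 : (16 : ℝ) ^ 5 ≤ d.g k ^ 5 := pow_le_pow_left₀ (by norm_num) h2 5
  norm_num at h3
  linarith

theorem a_le_b (k : ℕ) : (d.a k : ℝ) ≤ d.b k := (a_up d k).trans (g_pow d k 4 (by norm_num))

theorem S_le_b (k : ℕ) : (d.S k : ℝ) ≤ d.b k := by
  refine (S_up d k).trans ?_
  refine le_trans ?_ (g_pow d k 2 (by norm_num))
  have := g_ge d k
  nlinarith

theorem D_one (k : ℕ) : (1 : ℝ) ≤ d.D k := by exact_mod_cast (d.ρ k).den_pos

theorem D_pos (k : ℕ) : 0 < d.D k := (d.ρ k).den_pos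

theorem wedge_r (k : ℕ) : (d.a k : ℝ) * d.b (k + 1) = d.D k + d.b k * d.a (k + 1) := by
  exact_mod_cast (d.nxt k).wedge

theorem a_succ_low (k : ℕ) : (d.a k : ℝ) * (d.S k : ℝ) ^ 2 ≤ d.a (k + 1) := by
  exact_mod_cast (d.nxt k).a_low

theorem a_succ_up (k : ℕ) : (d.a (k + 1) : ℝ) ≤ 3 * d.a k * (d.S k : ℝ) ^ 2 := by
  exact_mod_cast (d.nxt k).a_up

theorem b_succ_low (k : ℕ) : (d.b k : ℝ) ^ 3 * (d.S k : ℝ) ^ 2 ≤ d.b (k + 1) := by
  exact_mod_cast (d.nxt k).b_low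

theorem b_succ_up (k : ℕ) : (d.b (k + 1) : ℝ) ≤ 11 * (d.b k : ℝ) ^ 3 * (d.S k : ℝ) ^ 2 := by
  exact_mod_cast (d.nxt k).b_up

theorem Q_low (k : ℕ) : (d.S k : ℝ) * (d.b (k + 1) : ℝ) ^ 2 ≤ d.Q k := by
  unfold Dat.Q
  exact_mod_cast (d.nxt k).q_low

theorem Q_up (k : ℕ) : d.Q k ≤ 2 * (d.S k * (d.b (k + 1) : ℝ) ^ 2) := by
  unfold Dat.Q
  exact_mod_cast (d.nxt k).q_up

theorem D_low (k : ℕ) : (d.a k : ℝ) * (d.b k : ℝ) ^ 3 * (d.S k : ℝ) ^ 2 ≤ d.D k := by
  exact_mod_cast (d.good k).den_low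

theorem D_low' (k : ℕ) : (d.b k : ℝ) ^ 3 ≤ d.D k := by
  refine le_trans ?_ (D_low d k)
  have h1 := a_one d k
  have h2 := S_ge d k
  have h3 : (1 : ℝ) ≤ (d.S k : ℝ) ^ 2 := by nlinarith
  have h4 : (0 : ℝ) ≤ (d.b k : ℝ) ^ 3 := by positivity
  calc (d.b k : ℝ) ^ 3 = 1 * (d.b k : ℝ) ^ 3 * 1 := by ring
    _ ≤ _ := by gcongr

theorem D_up (k : ℕ) : (d.D k : ℝ) ≤ d.a k * d.b (k + 1) := by
  rw [wedge_r]
  have : (0 : ℝ) ≤ d.b k * d.a (k + 1) := by positivity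
  linarith

theorem b_cube (k : ℕ) : (d.b k : ℝ) ^ 3 ≤ d.b (k + 1) := by
  refine le_trans ?_ (b_succ_low d k)
  have h2 := S_ge d k
  have h3 : (1 : ℝ) ≤ (d.S k : ℝ) ^ 2 := by nlinarith
  have h4 : (0 : ℝ) ≤ (d.b k : ℝ) ^ 3 := by positivity
  nlinarith

theorem b_mono (k : ℕ) : (d.b k : ℝ) ≤ d.b (k + 1) := by
  refine le_trans ?_ (b_cube d k)
  have h1 := b_big d k
  calc (d.b k : ℝ) = (d.b k : ℝ) ^ 1 := (pow_one _).symm
    _ ≤ _ := pow_le_pow_right₀ (by linarith) (by norm_num)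

theorem Q_pos (k : ℕ) : 0 < d.Q k := by
  have h1 := Q_low d k
  have h2 := S_ge d k
  have h3 := b_big d (k + 1)
  have : 0 < (d.S k : ℝ) * (d.b (k + 1) : ℝ) ^ 2 := by positivity
  linarith

/-- Growth of the products. -/
theorem QD_growth (k : ℕ) :
    22 * (d.b (k + 1) : ℝ) ^ 2 * (d.S (k + 1) : ℝ) ^ 2 * (d.Q k * d.D k)
      ≤ d.Q (k + 1) * d.D (k + 1) := by
  have hQ1 := Q_low d (k + 1)
  have hD1 := D_low' d (k + 1)
  have hb2 := b_cube d (k + 1)
  have hQ := Q_up d k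
  have hD := D_up d k
  have hS := S_ge d k
  have hS1 := S_ge d (k + 1)
  have hSb : (d.S k : ℝ) ≤ d.b (k + 1) := (S_le_b d k).trans (b_mono d k)
  have hab : (d.a k : ℝ) ≤ d.b (k + 1) := (a_le_b d k).trans (b_mono d k)
  have hB := b_big d (k + 1)
  have hQ0 := Q_pos d k
  set b := (d.b (k + 1) : ℝ) with hb
  set s := (d.S (k + 1) : ℝ)
  have hb0 : 0 < b := by linarith
  calc 22 * b ^ 2 * s ^ 2 * (d.Q k * d.D k)
      ≤ 22 * b ^ 2 * s ^ 2 * ((2 * (d.S k * b ^ 2)) * (d.a k * b)) := by gcongr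
    _ ≤ 22 * b ^ 2 * s ^ 2 * ((2 * (b * b ^ 2)) * (b * b)) := by gcongr
    _ = 44 * b ^ 7 * s ^ 2 * 1 := by ring
    _ ≤ b * b ^ 7 * s ^ 2 * s := by
        gcongr
        · linarith
        · linarith
    _ = s ^ 3 * b ^ 8 := by ring
    _ ≤ s ^ 3 * b ^ 9 := by
        gcongr
        · linarith
        · norm_num
    _ = (s * (b ^ 3) ^ 2) * b ^ 3 * s ^ 2 := by ring
    _ ≤ (s * (d.b (k + 1 + 1) : ℝ) ^ 2) * b ^ 3 * s ^ 2 := by gcongr
    _ ≤ d.Q (k + 1) * d.D (k + 1) := by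
        have h5 : s * (d.b (k + 1 + 1) : ℝ) ^ 2 ≤ d.Q (k + 1) := hQ1
        have h6 : b ^ 3 * s ^ 2 ≤ d.D (k + 1) := by
          refine le_trans ?_ (D_low d (k + 1))
          have := a_one d (k + 1)
          have h7 : 0 ≤ b ^ 3 * s ^ 2 := by positivity
          calc b ^ 3 * s ^ 2 = 1 * b ^ 3 * s ^ 2 := by ring
            _ ≤ _ := by gcongr
        calc (s * (d.b (k + 1 + 1) : ℝ) ^ 2) * b ^ 3 * s ^ 2
            = (s * (d.b (k + 1 + 1) : ℝ) ^ 2) * (b ^ 3 * s ^ 2) := by ring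
          _ ≤ d.Q (k + 1) * d.D (k + 1) :=
              mul_le_mul h5 h6 (by positivity) (Q_pos d (k + 1)).le

/-- Finite sums attached to a coefficient sequence. -/
noncomputable def Tc (c : ℕ → ℕ) : ℕ → ℝ
  | 0 => c 0 * (d.ρ 0 : ℝ)
  | k + 1 => Tc c k + c (k + 1) * ((d.ρ (k + 1) : ℝ) - d.ρ' k)

theorem Tc_int (c : ℕ → ℕ) (h : ∀ k, ∃ z : ℤ, (c k : ℝ) * d.ρ k - c (k + 1) * d.ρ' k = z) (k : ℕ) :
    ∃ z : ℤ, Tc d c k = c k * (d.ρ k : ℝ) + z := by
  induction k with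
  | zero => exact ⟨0, by simp [Tc]⟩
  | succ k ih =>
    obtain ⟨z, hz⟩ := ih
    obtain ⟨z', hz'⟩ := h k
    refine ⟨z + z', ?_⟩
    have : Tc d c (k + 1) = Tc d c k + c (k + 1) * ((d.ρ (k + 1) : ℝ) - d.ρ' k) := rfl
    rw [this, hz]
    push_cast
    linarith

/-- Error scale for a coefficient sequence. -/
noncomputable def Ec (c : ℕ → ℕ) (k : ℕ) : ℝ := 2 * c (k + 1) / (d.Q k * d.D k)

theorem Tc_dist (c : ℕ → ℕ) (k : ℕ) : dist (Tc d c k) (Tc d c (k + 1)) ≤ Ec d c k := by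
  have h0 : Tc d c (k + 1) = Tc d c k + c (k + 1) * ((d.ρ (k + 1) : ℝ) - d.ρ' k) := rfl
  rw [dist_comm, Real.dist_eq, h0, add_sub_cancel_left, abs_mul,
    abs_of_nonneg (by positivity : (0 : ℝ) ≤ c (k + 1))]
  have h1 := (d.nxt k).dist_up
  have hD := D_one d k
  have hA : (2 : ℝ) ≤ d.A k := by exact_mod_cast (d.nxt k).A_two
  calc (c (k + 1) : ℝ) * |(d.ρ (k + 1) : ℝ) - d.ρ' k|
      ≤ c (k + 1) * (2 / (d.A k * ((d.ρ k).den : ℝ) ^ 2)) := by gcongr
    _ = Ec d c k := by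
        unfold Ec Dat.Q Dat.D
        have : ((d.ρ k).den : ℝ) ≠ 0 := by
          have := (d.ρ k).den_pos
          positivity
        field_simp

theorem Ec_nonneg (c : ℕ → ℕ) (k : ℕ) : 0 ≤ Ec d c k := by
  unfold Ec
  have := Q_pos d k
  have := D_one d k
  positivity

theorem Ec_succ (c : ℕ → ℕ)
    (hc : ∀ k, (c (k + 2) : ℝ) ≤ c (k + 1) * (11 * (d.b (k + 1) : ℝ) ^ 2 * (d.S (k + 1) : ℝ) ^ 2))
    (k : ℕ) : Ec d c (k + 1) ≤ Ec d c k / 2 := by
  unfold Ec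
  have h1 := QD_growth d k
  have h2 := hc k
  have h3 := Q_pos d k
  have h4 := D_one d k
  have h5 := Q_pos d (k + 1)
  have h6 := D_one d (k + 1)
  have h7 : 0 < d.Q k * d.D k := by positivity
  have h8 : 0 < d.Q (k + 1) * d.D (k + 1) := by positivity
  rw [div_div, div_le_div_iff₀ h8 (by positivity)]
  have e1 : k + 1 + 1 = k + 2 := rfl
  rw [e1]
  calc 2 * (c (k + 2) : ℝ) * (d.Q k * d.D k * 2)
      ≤ 2 * (c (k + 1) * (11 * (d.b (k + 1) : ℝ) ^ 2 * (d.S (k + 1) : ℝ) ^ 2)) *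
          (d.Q k * d.D k * 2) := by gcongr
    _ = 2 * c (k + 1) * (22 * (d.b (k + 1) : ℝ) ^ 2 * (d.S (k + 1) : ℝ) ^ 2 *
          (d.Q k * d.D k)) := by ring
    _ ≤ 2 * c (k + 1) * (d.Q (k + 1) * d.D (k + 1)) := by gcongr

theorem Ec_add (c : ℕ → ℕ)
    (hc : ∀ k, (c (k + 2) : ℝ) ≤ c (k + 1) * (11 * (d.b (k + 1) : ℝ) ^ 2 * (d.S (k + 1) : ℝ) ^ 2))
    (k n : ℕ) : Ec d c (k + n) ≤ Ec d c k / 2 ^ n := by
  induction n with
  | zero => simp
  | succ n ih =>
    have := Ec_succ d c hc (k + n)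
    have e : k + (n + 1) = k + n + 1 := by ring
    rw [e, pow_succ, ← div_div]
    linarith

theorem exists_limit (c : ℕ → ℕ)
    (hc : ∀ k, (c (k + 2) : ℝ) ≤ c (k + 1) * (11 * (d.b (k + 1) : ℝ) ^ 2 * (d.S (k + 1) : ℝ) ^ 2)) :
    ∃ θ : ℝ, ∀ k, |θ - Tc d c k| ≤ 2 * Ec d c k := by
  have hcs : CauchySeq (fun k => Tc d c k) := by
    apply cauchySeq_of_le_geometric_two (C := 2 * Ec d c 0)
    intro n
    refine (Tc_dist d c n).trans ?_
    have := Ec_add d c hc 0 n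
    rw [zero_add] at this
    have e : 2 * Ec d c 0 / 2 / 2 ^ n = Ec d c 0 / 2 ^ n := by ring
    rw [e]; exact this
  obtain ⟨θ, hθ⟩ := cauchySeq_tendsto_of_complete hcs
  refine ⟨θ, fun k => ?_⟩
  have h1 : Tendsto (fun n => Tc d c (k + n)) atTop (𝓝 θ) := by
    have := hθ.comp (tendsto_add_atTop_nat k)
    refine this.congr ?_
    intro n
    simp [add_comm]
  have h2 := dist_le_of_le_geometric_two_of_tendsto₀ (C := 2 * Ec d c k)
    (f := fun n => Tc d c (k + n))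
    (fun n => by
      refine (Tc_dist d c (k + n)).trans ?_
      have := Ec_add d c hc k n
      have e : 2 * Ec d c k / 2 / 2 ^ n = Ec d c k / 2 ^ n := by ring
      rw [e]; exact this) h1
  rw [dist_comm, Real.dist_eq] at h2
  simpa using h2

theorem hc_b (k : ℕ) : (d.b (k + 2) : ℝ) ≤
    d.b (k + 1) * (11 * (d.b (k + 1) : ℝ) ^ 2 * (d.S (k + 1) : ℝ) ^ 2) := by
  have := b_succ_up d (k + 1)
  calc (d.b (k + 2) : ℝ) ≤ 11 * (d.b (k + 1) : ℝ) ^ 3 * (d.S (k + 1) : ℝ) ^ 2 := this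
    _ = _ := by ring

theorem hc_a (k : ℕ) : (d.a (k + 2) : ℝ) ≤
    d.a (k + 1) * (11 * (d.b (k + 1) : ℝ) ^ 2 * (d.S (k + 1) : ℝ) ^ 2) := by
  have h1 := a_succ_up d (k + 1)
  have h2 := b_big d (k + 1)
  have h3 : (3 : ℝ) ≤ 11 * (d.b (k + 1) : ℝ) ^ 2 := by nlinarith
  calc (d.a (k + 2) : ℝ) ≤ 3 * d.a (k + 1) * (d.S (k + 1) : ℝ) ^ 2 := h1
    _ = d.a (k + 1) * (3 * (d.S (k + 1) : ℝ) ^ 2) := by ring
    _ ≤ _ := by gcongr

/-- The two limits. -/
noncomputable def θb : ℝ := Classical.choose (exists_limit d d.b (hc_b d))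

noncomputable def θa : ℝ := Classical.choose (exists_limit d d.a (hc_a d))

theorem θb_spec (k : ℕ) : |θb d - Tc d d.b k| ≤ 2 * Ec d d.b k :=
  Classical.choose_spec (exists_limit d d.b (hc_b d)) k

theorem θa_spec (k : ℕ) : |θa d - Tc d d.a k| ≤ 2 * Ec d d.a k :=
  Classical.choose_spec (exists_limit d d.a (hc_a d)) k

/-- The linear form. -/
noncomputable def Lf (x y : ℤ) : ℝ := -θb d * x + θa d * y

/-- The wedge with the relation vector. -/
def jz (k : ℕ) (x y : ℤ) : ℤ := d.a k * y - d.b k * x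

/-- The remainder. -/
noncomputable def er (k : ℕ) (x y : ℤ) : ℝ :=
  -(θb d - Tc d d.b k) * x + (θa d - Tc d d.a k) * y

/-- The norm adapted to the next relation. -/
noncomputable def Jn (k : ℕ) (x y : ℤ) : ℝ := d.b k * |(x : ℝ)| + d.a k * |(y : ℝ)|

theorem form_eq (k : ℕ) (x y : ℤ) : ∃ z : ℤ,
    Lf d x y = jz d k x y * (d.ρ k : ℝ) - z + er d k x y := by
  obtain ⟨z1, h1⟩ := Tc_int d d.b (fun k => (d.nxt k).int_b) k
  obtain ⟨z2, h2⟩ := Tc_int d d.a (fun k => (d.nxt k).int_a) k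
  refine ⟨z1 * x - z2 * y, ?_⟩
  unfold Lf er jz
  rw [h1, h2]
  push_cast
  ring

theorem er_bound (k : ℕ) (x y : ℤ) : |er d k x y| ≤ 4 * Jn d (k + 1) x y / (d.Q k * d.D k) := by
  unfold er
  have h1 := θb_spec d k
  have h2 := θa_spec d k
  have h3 := Q_pos d k
  have h4 := D_one d k
  refine (abs_add_le _ _).trans ?_
  rw [abs_mul, abs_mul, abs_neg]
  have e : 4 * Jn d (k + 1) x y / (d.Q k * d.D k)
      = 2 * Ec d d.b k * |(x : ℝ)| + 2 * Ec d d.a k * |(y : ℝ)| := by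
    unfold Jn Ec; field_simp; ring
  rw [e]
  exact add_le_add (mul_le_mul_of_nonneg_right h1 (abs_nonneg _))
    (mul_le_mul_of_nonneg_right h2 (abs_nonneg _))

theorem er_succ (k : ℕ) (x y : ℤ) :
    er d k x y = jz d (k + 1) x y * ((d.ρ (k + 1) : ℝ) - d.ρ' k) + er d (k + 1) x y := by
  unfold er jz
  have h1 : Tc d d.b (k + 1) = Tc d d.b k + d.b (k + 1) * ((d.ρ (k + 1) : ℝ) - d.ρ' k) := rfl
  have h2 : Tc d d.a (k + 1) = Tc d d.a k + d.a (k + 1) * ((d.ρ (k + 1) : ℝ) - d.ρ' k) := rfl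
  rw [h1, h2]
  push_cast
  ring

end

/-! ### Lower bounds: generic vectors -/

/-- Integrality: a rational with denominator `D` times an integer not divisible by `D`. -/
theorem not_dvd_bound (ρ : ℚ) (j p : ℤ) (h : ¬ (ρ.den : ℤ) ∣ j) :
    1 / (ρ.den : ℝ) ≤ |j * (ρ : ℝ) - p| := by
  have hden : (0 : ℝ) < ρ.den := by exact_mod_cast ρ.den_pos
  have e : j * (ρ : ℝ) - p = ((j * ρ.num - p * ρ.den : ℤ) : ℝ) / ρ.den := by
    rw [eq_div_iff hden.ne']
    have h2 : (ρ.den : ℝ) * (ρ : ℝ) = ρ.num := by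
      have := Rat.den_mul_eq_num ρ
      exact_mod_cast this
    push_cast
    linear_combination (j : ℝ) * h2
  rw [e, abs_div, abs_of_pos hden]
  apply div_le_div_of_nonneg_right _ hden.le
  have hne : j * ρ.num - p * ρ.den ≠ 0 := by
    intro h0
    apply h
    have h1 : (ρ.den : ℤ) ∣ j * ρ.num := ⟨p, by linarith⟩
    have hc : IsCoprime (ρ.den : ℤ) ρ.num := by
      rw [Int.isCoprime_iff_gcd_eq_one, Int.gcd_comm]
      exact ρ.reduced
    exact hc.dvd_of_dvd_mul_right h1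
  exact_mod_cast Int.one_le_abs hne

theorem dvd_int (ρ : ℚ) (j : ℤ) (h : (ρ.den : ℤ) ∣ j) : ∃ z : ℤ, j * (ρ : ℝ) = z := by
  obtain ⟨c, rfl⟩ := h
  refine ⟨c * ρ.num, ?_⟩
  have h2 : (ρ.den : ℝ) * (ρ : ℝ) = ρ.num := by
    have := Rat.den_mul_eq_num ρ
    exact_mod_cast this
  push_cast
  linear_combination (c : ℝ) * h2

section

variable {γ K : ℝ} (d : Dat γ K)

/-- Size of an integer vector. -/
noncomputable def tt (x y : ℤ) : ℝ := max |(x : ℝ)| |(y : ℝ)|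

theorem tt_x (x y : ℤ) : |(x : ℝ)| ≤ tt x y := le_max_left _ _

theorem tt_y (x y : ℤ) : |(y : ℝ)| ≤ tt x y := le_max_right _ _

theorem tt_nonneg (x y : ℤ) : 0 ≤ tt x y := (abs_nonneg _).trans (tt_x x y)

theorem Jn_le (k : ℕ) (x y : ℤ) : Jn d k x y ≤ 2 * d.b k * tt x y := by
  unfold Jn
  have h1 := tt_x x y
  have h2 := tt_y x y
  have h3 := a_le_b d k
  have h4 := b_big d k
  have h5 : (d.b k : ℝ) * |(x : ℝ)| ≤ d.b k * tt x y := by gcongr
  have h6 : (d.a k : ℝ) * |(y : ℝ)| ≤ d.b k * tt x y := by gcongr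
  linarith

theorem tt_le_Jn (k : ℕ) (x y : ℤ) : tt x y ≤ Jn d k x y := by
  unfold Jn
  have h3 := a_one d k
  have h4 := b_big d k
  have h5 : |(x : ℝ)| ≤ d.b k * |(x : ℝ)| := le_mul_of_one_le_left (abs_nonneg _) (by linarith)
  have h6 : |(y : ℝ)| ≤ d.a k * |(y : ℝ)| := le_mul_of_one_le_left (abs_nonneg _) h3
  have h7 : 0 ≤ (d.b k : ℝ) * |(x : ℝ)| := by positivity
  have h8 : 0 ≤ (d.a k : ℝ) * |(y : ℝ)| := by positivity
  exact max_le (by linarith) (by linarith)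

theorem jz_abs_le (k : ℕ) (x y : ℤ) : |(jz d k x y : ℝ)| ≤ Jn d k x y := by
  unfold jz Jn
  push_cast
  refine (abs_sub _ _).trans ?_
  rw [abs_mul, abs_mul, abs_of_nonneg (by positivity : (0 : ℝ) ≤ d.a k),
    abs_of_nonneg (by positivity : (0 : ℝ) ≤ d.b k)]
  linarith

theorem er_small (k : ℕ) (x y : ℤ) (h : Jn d (k + 1) x y ≤ d.Q k / 16) :
    |er d k x y| ≤ 1 / (4 * d.D k) := by
  have hQ := Q_pos d k
  have hD := D_one d k
  refine (er_bound d k x y).trans ?_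
  rw [div_le_div_iff₀ (by positivity) (by positivity)]
  nlinarith

/-- growth used for the next remainder -/
theorem growth9 (k : ℕ) : 8 * d.b (k + 2) * d.Q k ^ 2 ≤ d.Q (k + 1) * d.D (k + 1) := by
  have hQ1 := Q_low d (k + 1)
  have hD1 := D_low' d (k + 1)
  have hb2 := b_cube d (k + 1)
  have hb1 := b_cube d k
  have hQ := Q_up d k
  have hQ0 := Q_pos d k
  have hS1 := S_ge d (k + 1)
  have hSb := S_le_b d k
  have hbk := b_big d k
  have hB := b_big d (k + 1)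
  have hB2 := b_big d (k + 2)
  set b := (d.b (k + 1) : ℝ) with hb
  have hS2 : (d.S k : ℝ) ^ 2 ≤ b := by
    calc (d.S k : ℝ) ^ 2 ≤ (d.b k : ℝ) ^ 2 := by gcongr
      _ ≤ (d.b k : ℝ) ^ 3 := pow_le_pow_right₀ (by linarith) (by norm_num)
      _ ≤ b := hb1
  have e1 : k + 1 + 1 = k + 2 := rfl
  rw [e1] at hQ1 hb2
  calc 8 * d.b (k + 2) * d.Q k ^ 2 ≤ 8 * d.b (k + 2) * (2 * (d.S k * b ^ 2)) ^ 2 := by gcongr
    _ = 32 * d.b (k + 2) * b ^ 4 * (d.S k : ℝ) ^ 2 := by ring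
    _ ≤ 32 * d.b (k + 2) * b ^ 4 * b := by gcongr
    _ = 32 * (d.b (k + 2) * b ^ 5) := by ring
    _ ≤ b * (d.b (k + 2) * b ^ 5) := by
        apply mul_le_mul_of_nonneg_right _ (by positivity)
        linarith
    _ = d.b (k + 2) * b ^ 3 * b ^ 3 := by ring
    _ ≤ d.b (k + 2) * d.b (k + 2) * b ^ 3 := by gcongr
    _ = 1 * (d.b (k + 2) : ℝ) ^ 2 * b ^ 3 := by ring
    _ ≤ d.S (k + 1) * (d.b (k + 2) : ℝ) ^ 2 * d.D (k + 1) := by
        gcongr
        linarith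
    _ ≤ d.Q (k + 1) * d.D (k + 1) := by gcongr

theorem er_next (k : ℕ) (x y : ℤ) (h : Jn d (k + 1) x y ≤ d.Q k / 16) :
    |er d (k + 1) x y| ≤ 1 / (16 * d.Q k) := by
  have hQ := Q_pos d k
  have hQ1 := Q_pos d (k + 1)
  have hD1 := D_one d (k + 1)
  have hB2 := b_big d (k + 2)
  refine (er_bound d (k + 1) x y).trans ?_
  rw [div_le_div_iff₀ (by positivity) (by positivity)]
  have e1 : k + 1 + 1 = k + 2 := rfl
  rw [e1]
  have h1 := Jn_le d (k + 2) x y
  have h2 := tt_le_Jn d (k + 1) x y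
  have h3 := growth9 d k
  have h4 : Jn d (k + 2) x y ≤ 2 * d.b (k + 2) * (d.Q k / 16) := by
    refine h1.trans ?_
    gcongr
    linarith
  calc 4 * Jn d (k + 2) x y * (16 * d.Q k)
      ≤ 4 * (2 * d.b (k + 2) * (d.Q k / 16)) * (16 * d.Q k) := by gcongr
    _ = 8 * d.b (k + 2) * d.Q k ^ 2 := by ring
    _ ≤ 1 * (d.Q (k + 1) * d.D (k + 1)) := by rw [one_mul]; exact h3

/-- Decomposition of a vector of the sublattice. -/
theorem decomp (k : ℕ) (x y : ℤ) (h : ((d.ρ k).den : ℤ) ∣ jz d k x y) :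
    ∃ u v : ℤ, x = u * d.a k + v * d.a (k + 1) ∧ y = u * d.b k + v * d.b (k + 1) := by
  obtain ⟨v, hv⟩ := h
  have hw : (d.a k : ℤ) * d.b (k + 1) = (d.ρ k).den + d.b k * d.a (k + 1) := by
    exact_mod_cast (d.nxt k).wedge
  have h1 : (d.a k : ℤ) * (y - v * d.b (k + 1)) = d.b k * (x - v * d.a (k + 1)) := by
    unfold jz at hv
    linear_combination hv - v * hw
  have hcop : IsCoprime (d.a k : ℤ) (d.b k : ℤ) := Nat.isCoprime_iff_coprime.2 (d.good k).cop
  have h2 : (d.a k : ℤ) ∣ x - v * d.a (k + 1) :=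
    hcop.dvd_of_dvd_mul_left ⟨y - v * d.b (k + 1), h1.symm⟩
  obtain ⟨u, hu⟩ := h2
  refine ⟨u, v, by linarith, ?_⟩
  have ha : (d.a k : ℤ) ≠ 0 := by have := (d.good k).a_pos; omega
  have h3 : (d.a k : ℤ) * (y - v * d.b (k + 1)) = d.a k * (d.b k * u) := by
    rw [h1, hu]; ring
  have h4 := mul_left_cancel₀ ha h3
  linarith

/-- Lower bound for vectors of the sublattice. -/
theorem lattice_low (k : ℕ) (u v : ℤ) (hu : u ≠ 0)
    (h : Jn d (k + 1) (u * d.a k + v * d.a (k + 1)) (u * d.b k + v * d.b (k + 1)) ≤ d.Q k / 16)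
    (p : ℤ) :
    |(u : ℝ)| / (16 * d.Q k) ≤
      |Lf d (u * d.a k + v * d.a (k + 1)) (u * d.b k + v * d.b (k + 1)) - p| := by
  set x : ℤ := u * d.a k + v * d.a (k + 1) with hx
  set y : ℤ := u * d.b k + v * d.b (k + 1) with hy
  have hQ := Q_pos d k
  have hD := D_one d k
  have hw : (d.a k : ℤ) * d.b (k + 1) = (d.ρ k).den + d.b k * d.a (k + 1) := by
    exact_mod_cast (d.nxt k).wedge
  have hj : jz d k x y = (d.ρ k).den * v := by
    unfold jz; rw [hx, hy]; linear_combination v * hw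
  have hj1 : jz d (k + 1) x y = -(u * d.D k) := by
    unfold jz Dat.D; rw [hx, hy]; linear_combination (-u) * hw
  obtain ⟨z, hz⟩ := form_eq d k x y
  obtain ⟨z', hz'⟩ := dvd_int (d.ρ k) (jz d k x y) ⟨v, hj⟩
  have hu1 : (1 : ℝ) ≤ |(u : ℝ)| := by exact_mod_cast Int.one_le_abs hu
  have he1 := er_small d k x y h
  have he2 := er_next d k x y h
  have hE : |(u : ℝ)| / (16 * d.Q k) ≤ |er d k x y| := by
    rw [er_succ, hj1]
    have h1 := (d.nxt k).dist_low
    have h2 : |(u : ℝ)| / (8 * d.Q k) ≤ |((-(u * (d.D k : ℤ)) : ℤ) : ℝ) * ((d.ρ (k + 1) : ℝ) - d.ρ' k)| := by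
      rw [abs_mul]
      push_cast
      rw [abs_neg, abs_mul, abs_of_nonneg (by positivity : (0 : ℝ) ≤ d.D k)]
      have hA : (2 : ℝ) ≤ d.A k := by exact_mod_cast (d.nxt k).A_two
      calc |(u : ℝ)| / (8 * d.Q k) = (|(u : ℝ)| * d.D k) * (1 / (8 * d.A k * (d.D k : ℝ) ^ 2)) := by
            unfold Dat.Q; field_simp
        _ ≤ _ := by
            apply mul_le_mul_of_nonneg_left _ (by positivity)
            exact h1
    have h3 : 1 / (16 * d.Q k) ≤ |(u : ℝ)| / (16 * d.Q k) := by gcongr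
    have h4 := abs_sub_abs_le_abs_add
      (((-(u * (d.D k : ℤ)) : ℤ) : ℝ) * ((d.ρ (k + 1) : ℝ) - d.ρ' k)) (er d (k + 1) x y)
    have h5 : |(u : ℝ)| / (8 * d.Q k) = |(u : ℝ)| / (16 * d.Q k) + |(u : ℝ)| / (16 * d.Q k) := by
      field_simp; ring
    linarith
  have hS : Lf d x y - p = ((z' - z - p : ℤ) : ℝ) + er d k x y := by
    rw [hz, hz']; push_cast; ring
  rw [hS]
  have h14 : 1 / (4 * (d.D k : ℝ)) ≤ 1 / 4 := by
    apply one_div_le_one_div_of_le (by norm_num); linarith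
  by_cases ha : z' - z - p = 0
  · rw [ha, Int.cast_zero, zero_add]
    exact hE
  · have h3 : (1 : ℝ) ≤ |((z' - z - p : ℤ) : ℝ)| := by exact_mod_cast Int.one_le_abs ha
    have h4 := abs_sub_abs_le_abs_add ((z' - z - p : ℤ) : ℝ) (er d k x y)
    linarith

/-- The generic case. -/
theorem generic_low (l : ℕ) (x y : ℤ) (h1 : d.Q l / 16 ≤ Jn d (l + 1) x y)
    (h2 : Jn d (l + 2) x y ≤ d.Q (l + 1) / 16)
    (hnd : ¬ ((d.ρ (l + 1)).den : ℤ) ∣ jz d (l + 1) x y) (p : ℤ) :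
    d.g l / 10000 ≤ tt x y ^ 2 * |Lf d x y - p| := by
  obtain ⟨z, hz⟩ := form_eq d (l + 1) x y
  have hnb := not_dvd_bound (d.ρ (l + 1)) (jz d (l + 1) x y) (z + p) hnd
  have her := er_small d (l + 1) x y h2
  have hD1 := D_one d (l + 1)
  have hQl := Q_pos d l
  have hSl := S_ge d l
  have hb := b_big d (l + 1)
  have hQlow := Q_low d l
  have hQup := Q_up d l
  have hg1 := S_low d l
  have hg0 := g_ge d l
  set b := (d.b (l + 1) : ℝ) with hbdef
  set t := tt x y with ht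
  have ht0 : 0 ≤ t := tt_nonneg x y
  have hJt : Jn d (l + 1) x y ≤ 2 * b * t := Jn_le d (l + 1) x y
  have hjJ := jz_abs_le d (l + 1) x y
  have hS : Lf d x y - p = (jz d (l + 1) x y * (d.ρ (l + 1) : ℝ) - ((z + p : ℤ) : ℝ))
      + er d (l + 1) x y := by
    rw [hz]; push_cast; ring
  have hlow : |jz d (l + 1) x y * (d.ρ (l + 1) : ℝ) - ((z + p : ℤ) : ℝ)| - |er d (l + 1) x y| ≤
      |Lf d x y - p| := by
    rw [hS]; exact abs_sub_abs_le_abs_add _ _
  have e2 : 1 / (4 * (d.D (l + 1) : ℝ)) = 1 / (d.D (l + 1)) / 4 := by field_simp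
  have hDinv : (0 : ℝ) < 1 / (d.D (l + 1)) := by positivity
  rw [e2] at her
  have htQ : d.Q l / (32 * b) ≤ t := by
    rw [div_le_iff₀ (by positivity)]
    linarith
  by_cases hbig : (d.D (l + 1) : ℝ) ≤ 16 * |(jz d (l + 1) x y : ℝ)|
  · -- large values of the wedge
    have h4 : 1 / (d.D (l + 1) : ℝ) ≤ |jz d (l + 1) x y * (d.ρ (l + 1) : ℝ) - ((z + p : ℤ) : ℝ)| :=
      hnb
    have h5 : 1 / (d.D (l + 1) : ℝ) / 2 ≤ |Lf d x y - p| := by linarith
    have h6 : (d.D (l + 1) : ℝ) / (32 * b) ≤ t := by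
      rw [div_le_iff₀ (by positivity)]
      linarith
    have hDl := D_low' d (l + 1)
    have hgb : d.g l ≤ b := by
      have h7 := g_pow d l 1 (by norm_num)
      rw [pow_one] at h7
      exact h7.trans (b_mono d l)
    calc d.g l / 10000 ≤ b / 2048 := by linarith
      _ = b ^ 3 / (2048 * b ^ 2) := by field_simp
      _ ≤ d.D (l + 1) / (2048 * b ^ 2) := by gcongr
      _ = ((d.D (l + 1) : ℝ) / (32 * b)) ^ 2 * (1 / (d.D (l + 1) : ℝ) / 2) := by field_simp; ring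
      _ ≤ t ^ 2 * |Lf d x y - p| := by gcongr
  · push Not at hbig
    have hj0 : jz d (l + 1) x y ≠ 0 := by
      intro h0
      apply hnd
      rw [h0]
      exact dvd_zero _
    set j := jz d (l + 1) x y with hj
    set jn := j.natAbs with hjn
    have hjn0 : 0 < jn := Int.natAbs_pos.2 hj0
    have hjr : (jn : ℝ) = |(j : ℝ)| := by
      rw [hjn, Nat.cast_natAbs]; push_cast; rfl
    -- reduce to a positive multiplier
    have hmin : min (1 / (8 * (jn : ℝ))) (1 / (4 * d.A l * (d.ρ l).den))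
        - jn / ((d.ρ (l + 1)).den : ℝ) ^ 2 ≤ |j * (d.ρ (l + 1) : ℝ) - ((z + p : ℤ) : ℝ)| := by
      rcases le_total 0 j with hs | hs
      · have h7 := (d.nxt l).lower jn hjn0 (z + p)
        have h8 : (jn : ℝ) = j := by rw [hjr, abs_of_nonneg (by exact_mod_cast hs)]
        rw [h8] at h7 ⊢
        exact h7
      · have h7 := (d.nxt l).lower jn hjn0 (-(z + p))
        have h8 : (jn : ℝ) = -j := by rw [hjr, abs_of_nonpos (by exact_mod_cast hs)]
        have h9 : (jn : ℝ) * (d.ρ (l + 1) : ℝ) - ((-(z + p) : ℤ) : ℝ)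
            = -(j * (d.ρ (l + 1) : ℝ) - ((z + p : ℤ) : ℝ)) := by
          rw [h8]; push_cast; ring
        rw [h9, abs_neg] at h7
        exact h7
    have hjpos : (0 : ℝ) < jn := by exact_mod_cast hjn0
    have hQdef : 4 * (d.A l : ℝ) * (d.ρ l).den = 4 * d.Q l := by
      unfold Dat.Q Dat.D; ring
    rw [hQdef] at hmin
    rw [← hjr] at hbig hjJ
    have hm1 : 2 * (1 / (d.D (l + 1) : ℝ)) ≤ 1 / (8 * (jn : ℝ)) := by
      rw [mul_one_div, div_le_div_iff₀ (by positivity) (by positivity)]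
      linarith
    have hDQ : 8 * d.Q l ≤ d.D (l + 1) := by
      have h7 := D_low' d (l + 1)
      have h8 : (16 : ℝ) * d.S l ≤ b := by
        have h9 := S_le_b d l
        have h10 := b_cube d l
        have h11 := b_big d l
        calc (16 : ℝ) * d.S l ≤ 16 * d.b l := by linarith
          _ ≤ (d.b l : ℝ) ^ 2 * d.b l := by
              apply mul_le_mul_of_nonneg_right _ (by positivity)
              nlinarith
          _ = (d.b l : ℝ) ^ 3 := by ring
          _ ≤ b := h10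
      calc 8 * d.Q l ≤ 8 * (2 * (d.S l * b ^ 2)) := by linarith
        _ = (16 * d.S l) * b ^ 2 := by ring
        _ ≤ b * b ^ 2 := by gcongr
        _ = b ^ 3 := by ring
        _ ≤ d.D (l + 1) := h7
    have hm2 : 2 * (1 / (d.D (l + 1) : ℝ)) ≤ 1 / (4 * d.Q l) := by
      rw [mul_one_div, div_le_div_iff₀ (by positivity) (by positivity)]
      linarith
    set m0 := min (1 / (8 * (jn : ℝ))) (1 / (4 * d.Q l)) with hm0
    have hm : 2 * (1 / (d.D (l + 1) : ℝ)) ≤ m0 := le_min hm1 hm2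
    have hjD : (jn : ℝ) / ((d.ρ (l + 1)).den : ℝ) ^ 2 ≤ 1 / (d.D (l + 1)) / 16 := by
      have h7 : ((d.ρ (l + 1)).den : ℝ) = d.D (l + 1) := rfl
      rw [h7, div_div, div_le_div_iff₀ (by positivity) (by positivity)]
      nlinarith
    have hval : m0 / 2 ≤ |Lf d x y - p| := by linarith
    have htJ : (jn : ℝ) ≤ 2 * b * t := by linarith
    have ht1 : 0 < t := lt_of_lt_of_le (by positivity) htQ
    have hkey : d.g l / 10000 ≤ t ^ 2 * (m0 / 2) := by
      have c1 : d.g l / 10000 ≤ t ^ 2 * (1 / (8 * (jn : ℝ)) / 2) := by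
        calc d.g l / 10000 ≤ d.S l / 1024 := by linarith
          _ = d.S l * b ^ 2 / (1024 * b ^ 2) := by field_simp
          _ ≤ d.Q l / (1024 * b ^ 2) := by gcongr
          _ = (d.Q l / (32 * b)) * (1 / (32 * b)) := by field_simp; ring
          _ ≤ t * (1 / (32 * b)) := by gcongr
          _ = t ^ 2 * (1 / (8 * (2 * b * t)) / 2) := by field_simp; ring
          _ ≤ t ^ 2 * (1 / (8 * (jn : ℝ)) / 2) := by gcongr
      have c2 : d.g l / 10000 ≤ t ^ 2 * (1 / (4 * d.Q l) / 2) := by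
        calc d.g l / 10000 ≤ d.S l / 8192 := by linarith
          _ = d.S l * b ^ 2 / (8192 * b ^ 2) := by field_simp
          _ ≤ d.Q l / (8192 * b ^ 2) := by gcongr
          _ = (d.Q l / (32 * b)) ^ 2 * (1 / (4 * d.Q l) / 2) := by field_simp; ring
          _ ≤ t ^ 2 * (1 / (4 * d.Q l) / 2) := by gcongr
      rw [hm0]
      rcases min_choice (1 / (8 * (jn : ℝ))) (1 / (4 * d.Q l)) with h9 | h9 <;> rw [h9]
      · exact c1
      · exact c2
    refine hkey.trans ?_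
    gcongr

end

/-! ### Lower bounds: vectors of the sublattice -/

section

variable {γ K : ℝ} (d : Dat γ K)

theorem g_succ (k : ℕ) : d.g k ^ 3 ≤ d.g (k + 1) := by
  unfold Dat.g
  have hb := b_cube d k
  have hγ := d.hγ
  calc ((d.b k : ℝ) ^ γ) ^ 3 = ((d.b k : ℝ) ^ 3) ^ γ := by
        rw [← Real.rpow_natCast, ← Real.rpow_mul (by positivity), ← Real.rpow_natCast,
          ← Real.rpow_mul (by positivity)]
        congr 1; ring
    _ ≤ (d.b (k + 1) : ℝ) ^ γ := Real.rpow_le_rpow (by positivity) hb hγ.le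

theorem g_succ' (k : ℕ) : d.g k ≤ d.g (k + 1) := by
  refine le_trans ?_ (g_succ d k)
  have := g_ge d k
  calc d.g k = d.g k ^ 1 := (pow_one _).symm
    _ ≤ d.g k ^ 3 := pow_le_pow_right₀ (by linarith) (by norm_num)

theorem g_mono : Monotone d.g := monotone_nat_of_le_succ (g_succ' d)

theorem a_succ_big (k : ℕ) : (256 : ℝ) ≤ d.a (k + 1) := by
  have h1 := a_succ_low d k
  have h2 := a_one d k
  have h3 := S_ge d k
  have h4 : (256 : ℝ) ≤ (d.S k : ℝ) ^ 2 := by nlinarith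
  nlinarith

/-- Multiples of one relation vector in the domain. -/
theorem mult_low (ρ : ℝ) (hρ1 : 1 < ρ) (hρ2 : ρ < 7 / 4) (hγρ : 26 * γ ≤ 7 - 4 * ρ)
    (k : ℕ) (u : ℤ) (hu : u ≠ 0)
    (hdom : |(((u * d.a (k + 1) : ℤ)) : ℝ)| ≤ 1 ∨
      |(((u * d.b (k + 1) : ℤ)) : ℝ)| ≤ |(((u * d.a (k + 1) : ℤ)) : ℝ)| ^ ρ) :
    d.g (k + 1) / 200000 ≤
      tt (u * d.a (k + 1)) (u * d.b (k + 1)) ^ 2 * (|(u : ℝ)| / (16 * d.Q (k + 1))) := by
  have hu1 : (1 : ℝ) ≤ |(u : ℝ)| := by exact_mod_cast Int.one_le_abs hu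
  have ha := a_succ_big d k
  have hb := b_big d (k + 1)
  set b := (d.b (k + 1) : ℝ) with hbdef
  set a := (d.a (k + 1) : ℝ) with hadef
  set U := |(u : ℝ)| with hU
  have hxa : |(((u * d.a (k + 1) : ℤ)) : ℝ)| = U * a := by
    push_cast; rw [abs_mul, abs_of_nonneg (by positivity : (0 : ℝ) ≤ d.a (k + 1))]
  have hyb : |(((u * d.b (k + 1) : ℤ)) : ℝ)| = U * b := by
    push_cast; rw [abs_mul, abs_of_nonneg (by positivity : (0 : ℝ) ≤ d.b (k + 1))]
  rw [hxa, hyb] at hdom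
  have hdom2 : U * b ≤ (U * a) ^ ρ := by
    rcases hdom with h | h
    · exfalso; nlinarith
    · exact h
  have hU0 : 0 < U := by linarith
  have hb0 : 0 < b := by linarith
  have ha0 : 0 < a := by linarith
  -- U ^ (ρ - 1) ≥ b / a ^ ρ
  have hag : a ≤ b ^ (4 * γ) := by
    have h1 : a ≤ (b ^ γ) ^ 4 := a_up d (k + 1)
    refine h1.trans (le_of_eq ?_)
    rw [← Real.rpow_natCast, ← Real.rpow_mul hb0.le]
    congr 1; push_cast; ring
  have h1 : b ^ (1 - 4 * γ * ρ) ≤ U ^ (ρ - 1) := by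
    rw [Real.mul_rpow hU0.le ha0.le] at hdom2
    have h2 : a ^ ρ ≤ b ^ (4 * γ * ρ) := by
      calc a ^ ρ ≤ (b ^ (4 * γ)) ^ ρ := Real.rpow_le_rpow ha0.le hag (by linarith)
        _ = b ^ (4 * γ * ρ) := by rw [← Real.rpow_mul hb0.le]
    rw [Real.rpow_sub hb0, Real.rpow_one, Real.rpow_sub hU0, Real.rpow_one,
      div_le_div_iff₀ (by positivity) hU0]
    calc b * U = U * b := by ring
      _ ≤ U ^ ρ * a ^ ρ := hdom2
      _ ≤ U ^ ρ * b ^ (4 * γ * ρ) := by gcongr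
  have hγ := d.hγ
  have h3 : b ^ (4 + 6 * γ) ≤ U ^ (3 : ℕ) := by
    have h4 : (4 + 6 * γ) * (ρ - 1) ≤ 3 * (1 - 4 * γ * ρ) := by nlinarith
    have h5 : (b ^ (4 + 6 * γ)) ^ (ρ - 1) ≤ (U ^ (3 : ℕ)) ^ (ρ - 1) := by
      calc (b ^ (4 + 6 * γ)) ^ (ρ - 1) = b ^ ((4 + 6 * γ) * (ρ - 1)) := by
            rw [← Real.rpow_mul hb0.le]
        _ ≤ b ^ (3 * (1 - 4 * γ * ρ)) := Real.rpow_le_rpow_of_exponent_le (by linarith) h4
        _ = (b ^ (1 - 4 * γ * ρ)) ^ (3 : ℕ) := by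
            rw [← Real.rpow_natCast, ← Real.rpow_mul hb0.le]
            congr 1; push_cast; ring
        _ ≤ (U ^ (ρ - 1)) ^ (3 : ℕ) := by gcongr
        _ = (U ^ (3 : ℕ)) ^ (ρ - 1) := by
            rw [← Real.rpow_natCast, ← Real.rpow_mul hU0.le, ← Real.rpow_natCast,
              ← Real.rpow_mul hU0.le]
            congr 1; ring
    exact (Real.rpow_le_rpow_iff (by positivity) (by positivity) (by linarith)).1 h5
  -- upper bound for Q
  set g := d.g (k + 1) with hg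
  have hgb : g = b ^ γ := rfl
  have hg16 := g_ge d (k + 1)
  have hSup := S_up d (k + 1)
  have hQup := Q_up d (k + 1)
  have hbup := b_succ_up d (k + 1)
  have hQ0 := Q_pos d (k + 1)
  have hQ2 : d.Q (k + 1) ≤ 7744 * g ^ 5 * b ^ 6 := by
    calc d.Q (k + 1) ≤ 2 * (d.S (k + 1) * (d.b (k + 1 + 1) : ℝ) ^ 2) := hQup
      _ ≤ 2 * ((2 * g) * (11 * b ^ 3 * (2 * g) ^ 2) ^ 2) := by
          have h6 : (d.b (k + 1 + 1) : ℝ) ≤ 11 * b ^ 3 * (2 * g) ^ 2 := by
            refine hbup.trans ?_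
            gcongr
          gcongr
      _ = 7744 * g ^ 5 * b ^ 6 := by ring
  have hb46 : b ^ (4 + 6 * γ) = b ^ (4 : ℕ) * g ^ 6 := by
    have e1 : b ^ (4 + 6 * γ) = b ^ (4 : ℝ) * b ^ (6 * γ) := Real.rpow_add hb0 _ _
    have e2 : b ^ (4 : ℝ) = b ^ (4 : ℕ) := by norm_cast
    have e3 : b ^ (6 * γ) = g ^ 6 := by
      rw [hgb, ← Real.rpow_natCast, ← Real.rpow_mul hb0.le]
      congr 1; push_cast; ring
    rw [e1, e2, e3]
  rw [hb46] at h3
  have ht : U * b ≤ tt (u * d.a (k + 1)) (u * d.b (k + 1)) := by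
    have := tt_y (u * d.a (k + 1)) (u * d.b (k + 1))
    rw [hyb] at this
    exact this
  calc g / 200000 ≤ g / (16 * 7744) := by
        have : (0 : ℝ) < g := by linarith
        gcongr
        norm_num
    _ = b ^ 2 * (b ^ 4 * g ^ 6) / (16 * (7744 * g ^ 5 * b ^ 6)) := by
        have : (0 : ℝ) < g := by linarith
        field_simp
    _ ≤ b ^ 2 * U ^ 3 / (16 * (7744 * g ^ 5 * b ^ 6)) := by
        have : (0 : ℝ) < g := by linarith
        gcongr
    _ ≤ b ^ 2 * U ^ 3 / (16 * d.Q (k + 1)) := by gcongr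
    _ = (U * b) ^ 2 * (U / (16 * d.Q (k + 1))) := by ring
    _ ≤ _ := by gcongr

/-- Vectors of the sublattice in the domain, with both coefficients non-zero. -/
theorem mixed_low (ρ : ℝ) (hρ1 : 1 < ρ) (hρ2 : ρ < 7 / 4)
    (k : ℕ) (u v : ℤ) (hu : u ≠ 0) (hv : v ≠ 0)
    (hdom : |(((u * d.a k + v * d.a (k + 1) : ℤ)) : ℝ)| ≤ 1 ∨
      |(((u * d.b k + v * d.b (k + 1) : ℤ)) : ℝ)| ≤
        |(((u * d.a k + v * d.a (k + 1) : ℤ)) : ℝ)| ^ ρ) :
    d.g k / 1024 ≤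
      tt (u * d.a k + v * d.a (k + 1)) (u * d.b k + v * d.b (k + 1)) ^ 2 *
        (|(u : ℝ)| / (16 * d.Q k)) := by
  have hu1 : (1 : ℝ) ≤ |(u : ℝ)| := by exact_mod_cast Int.one_le_abs hu
  have hv1 : (1 : ℝ) ≤ |(v : ℝ)| := by exact_mod_cast Int.one_le_abs hv
  have htx := tt_x (u * d.a k + v * d.a (k + 1)) (u * d.b k + v * d.b (k + 1))
  have hty := tt_y (u * d.a k + v * d.a (k + 1)) (u * d.b k + v * d.b (k + 1))
  set t := tt (u * d.a k + v * d.a (k + 1)) (u * d.b k + v * d.b (k + 1)) with ht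
  set X := |(((u * d.a k + v * d.a (k + 1) : ℤ)) : ℝ)| with hX
  set Y := |(((u * d.b k + v * d.b (k + 1) : ℤ)) : ℝ)| with hY
  have ht0 : 0 ≤ t := (abs_nonneg _).trans htx
  have hak := a_one d k
  have hak4 := a_up d k
  have haup := a_succ_up d k
  have halow := a_succ_low d k
  have hbk := b_big d k
  have hN := b_big d (k + 1)
  have hNlow := b_succ_low d k
  have hS := S_ge d k
  have hSg := S_low d k
  have hSup := S_up d k
  have hg := g_ge d k
  have hQ := Q_pos d k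
  have hQup := Q_up d k
  set a := (d.a k : ℝ) with hadef
  set a' := (d.a (k + 1) : ℝ) with ha'def
  set b := (d.b k : ℝ) with hbdef
  set N := (d.b (k + 1) : ℝ) with hNdef
  set S := (d.S k : ℝ) with hSdef
  set U := |(u : ℝ)| with hU
  set V := |(v : ℝ)| with hV
  have hN0 : 0 < N := by linarith
  have hU0 : 0 < U := by linarith
  -- reverse triangle inequalities
  have hX1 : U * a - V * a' ≤ X := by
    have h1 := abs_sub_abs_le_abs_add ((u : ℝ) * a) ((v : ℝ) * a')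
    rw [abs_mul, abs_mul, abs_of_nonneg (by linarith : (0 : ℝ) ≤ a),
      abs_of_nonneg (by positivity : (0 : ℝ) ≤ a')] at h1
    rw [hX]; push_cast; exact h1
  have hX2 : V * a' - U * a ≤ X := by
    have h1 := abs_sub_abs_le_abs_add ((v : ℝ) * a') ((u : ℝ) * a)
    rw [abs_mul, abs_mul, abs_of_nonneg (by linarith : (0 : ℝ) ≤ a),
      abs_of_nonneg (by positivity : (0 : ℝ) ≤ a'), add_comm] at h1
    rw [hX]; push_cast; exact h1
  have hX3 : X ≤ U * a + V * a' := by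
    have h1 := abs_add_le ((u : ℝ) * a) ((v : ℝ) * a')
    rw [abs_mul, abs_mul, abs_of_nonneg (by linarith : (0 : ℝ) ≤ a),
      abs_of_nonneg (by positivity : (0 : ℝ) ≤ a')] at h1
    rw [hX]; push_cast; exact h1
  have hY1 : V * N - U * b ≤ Y := by
    have h1 := abs_sub_abs_le_abs_add ((v : ℝ) * N) ((u : ℝ) * b)
    rw [abs_mul, abs_mul, abs_of_nonneg (by linarith : (0 : ℝ) ≤ b),
      abs_of_nonneg (by linarith : (0 : ℝ) ≤ N), add_comm] at h1
    rw [hY]; push_cast; exact h1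
  -- upper bound for Q
  have hQ2 : 16 * d.Q k ≤ 32 * (S * N ^ 2) := by linarith
  have hfin : ∀ W : ℝ, 0 ≤ W → W ≤ t ^ 2 * U → W / (32 * (S * N ^ 2)) ≤ t ^ 2 * (U / (16 * d.Q k)) := by
    intro W hW0 hW
    calc W / (32 * (S * N ^ 2)) ≤ W / (16 * d.Q k) := by
          apply div_le_div_of_nonneg_left hW0 (by positivity) hQ2
      _ ≤ t ^ 2 * U / (16 * d.Q k) := by gcongr
      _ = _ := by ring
  by_cases hYs : Y < V * N / 2
  · -- cancellation in the second coordinate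
    have h1 : V * N / (2 * b) ≤ U := by
      rw [div_le_iff₀ (by linarith)]
      linarith
    have h2 : N / (2 * b) ≤ U := by
      refine le_trans ?_ h1
      gcongr
      nlinarith
    have h3 : V * a' ≤ U * a / 2 := by
      have h4 : V ≤ 2 * b * U / N := by
        rw [le_div_iff₀ hN0]
        rw [div_le_iff₀ (by linarith)] at h1
        linarith
      have h5 : 12 * (b * S ^ 2) ≤ N := by
        refine le_trans ?_ hNlow
        have : 12 * b ≤ b ^ 3 := by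
          have h6 : (12 : ℝ) ≤ b ^ 2 := by nlinarith
          calc 12 * b ≤ b ^ 2 * b := by gcongr
            _ = b ^ 3 := by ring
        calc 12 * (b * S ^ 2) = (12 * b) * S ^ 2 := by ring
          _ ≤ b ^ 3 * S ^ 2 := by gcongr
      calc V * a' ≤ (2 * b * U / N) * (3 * a * S ^ 2) := by gcongr
        _ = U * a / 2 * (12 * (b * S ^ 2)) / N := by field_simp; ring
        _ ≤ U * a / 2 * N / N := by gcongr
        _ = U * a / 2 := by field_simp
    have h6 : U / 2 ≤ t := by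
      have : U ≤ U * a := le_mul_of_one_le_right hU0.le hak
      linarith
    have h7 : U ^ 3 / 4 ≤ t ^ 2 * U := by
      calc U ^ 3 / 4 = (U / 2) ^ 2 * U := by ring
        _ ≤ t ^ 2 * U := by gcongr
    refine le_trans ?_ (hfin (U ^ 3 / 4) (by positivity) h7)
    calc d.g k / 1024 ≤ S / 1024 := by gcongr
      _ = (b ^ 3 * S ^ 2) / (1024 * S * b ^ 3) := by field_simp
      _ ≤ N / (1024 * S * b ^ 3) := by gcongr
      _ = (N / (2 * b)) ^ 3 / 4 / (32 * (S * N ^ 2)) := by field_simp; ring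
      _ ≤ U ^ 3 / 4 / (32 * (S * N ^ 2)) := by gcongr
  · push Not at hYs
    have h1 : V * N / 2 ≤ t := hYs.trans hty
    have hkey : S ^ 2 / 2 ≤ V ^ 2 * U := by
      rcases hdom with hd | hd
      · -- in the strip
        have h2 : a * (S ^ 2 - 1) ≤ a * U := by
          have h3 : a' ≤ V * a' := le_mul_of_one_le_left (by positivity) hv1
          nlinarith
        have h4 : S ^ 2 - 1 ≤ U := le_of_mul_le_mul_left h2 (by linarith)
        have h5 : U ≤ V ^ 2 * U := le_mul_of_one_le_left hU0.le (one_le_pow₀ hv1)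
        nlinarith
      · by_cases hVS : S ≤ V
        · calc S ^ 2 / 2 ≤ S ^ 2 * 1 := by nlinarith
            _ ≤ V ^ 2 * U := by gcongr
        · by_cases hUS : S ^ 2 ≤ U
          · calc S ^ 2 / 2 ≤ 1 * S ^ 2 := by nlinarith
              _ ≤ V ^ 2 * U := by
                  gcongr
                  exact one_le_pow₀ hv1
          · exfalso
            push Not at hVS hUS
            have hXup : X ≤ 4 * a * S ^ 3 := by
              calc X ≤ U * a + V * a' := hX3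
                _ ≤ S ^ 2 * a + S * (3 * a * S ^ 2) := by gcongr
                _ = a * S ^ 2 * 1 + 3 * a * S ^ 3 := by ring
                _ ≤ a * S ^ 2 * S + 3 * a * S ^ 3 := by
                    gcongr
                    linarith
                _ = 4 * a * S ^ 3 := by ring
            have hX0 : 0 ≤ X := abs_nonneg _
            have hXbig : 1 ≤ 4 * a * S ^ 3 := by
              have : (1 : ℝ) ≤ S ^ 3 := one_le_pow₀ (by linarith)
              nlinarith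
            have h2 : X ^ ρ ≤ (4 * a * S ^ 3) ^ 2 := by
              calc X ^ ρ ≤ (4 * a * S ^ 3) ^ ρ := Real.rpow_le_rpow hX0 hXup (by linarith)
                _ ≤ (4 * a * S ^ 3) ^ (2 : ℝ) :=
                    Real.rpow_le_rpow_of_exponent_le hXbig (by linarith)
                _ = (4 * a * S ^ 3) ^ 2 := by norm_cast
            have h3 : (4 * a * S ^ 3) ^ 2 ≤ 1024 * d.g k ^ 14 := by
              calc (4 * a * S ^ 3) ^ 2 ≤ (4 * d.g k ^ 4 * (2 * d.g k) ^ 3) ^ 2 := by gcongr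
                _ = 1024 * d.g k ^ 14 := by ring
            have h4 : 1024 * d.g k ^ 14 ≤ b := by
              calc 1024 * d.g k ^ 14 ≤ d.g k ^ 3 * d.g k ^ 14 := by
                    have : (16 : ℝ) ^ 3 ≤ d.g k ^ 3 := pow_le_pow_left₀ (by norm_num) hg 3
                    gcongr
                    norm_num at this
                    linarith
                _ = d.g k ^ 17 := by ring
                _ ≤ b := g_pow d k 17 (by norm_num)
            have h5 : N / 2 ≤ Y := by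
              refine le_trans ?_ hYs
              nlinarith
            have h6 : b ^ 3 ≤ N := b_cube d k
            nlinarith [sq_nonneg (b - 1)]
    have h7 : (V ^ 2 * U) * (N ^ 2 / 4) ≤ t ^ 2 * U := by
      calc (V ^ 2 * U) * (N ^ 2 / 4) = (V * N / 2) ^ 2 * U := by ring
        _ ≤ t ^ 2 * U := by gcongr
    refine le_trans ?_ (hfin _ (by positivity) h7)
    calc d.g k / 1024 ≤ S / 256 := by linarith
      _ = (S ^ 2 / 2) * (N ^ 2 / 4) / (32 * (S * N ^ 2)) := by field_simp; ring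
      _ ≤ (V ^ 2 * U) * (N ^ 2 / 4) / (32 * (S * N ^ 2)) := by gcongr

/-- The estimate at one level. -/
theorem level_low (ρ : ℝ) (hρ1 : 1 < ρ) (hρ2 : ρ < 7 / 4) (hγρ : 26 * γ ≤ 7 - 4 * ρ)
    (l : ℕ) (x y : ℤ) (h1 : d.Q l / 16 ≤ Jn d (l + 1) x y)
    (h2 : Jn d (l + 2) x y ≤ d.Q (l + 1) / 16)
    (hdom : |(x : ℝ)| ≤ 1 ∨ |(y : ℝ)| ≤ |(x : ℝ)| ^ ρ) (p : ℤ) :
    d.g l / 200000 ≤ tt x y ^ 2 * |Lf d x y - p| := by
  have hg := g_ge d l
  have hg1 := g_succ' d l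
  have hg2 := g_succ' d (l + 1)
  by_cases hdv : ((d.ρ (l + 1)).den : ℤ) ∣ jz d (l + 1) x y
  · obtain ⟨u, v, hx, hy⟩ := decomp d (l + 1) x y hdv
    have e2 : l + 1 + 1 = l + 2 := rfl
    rw [e2] at hx hy
    by_cases hu : u = 0
    · -- multiples of the next relation vector
      have hx' : x = v * d.a (l + 2) := by rw [hx, hu]; ring
      have hy' : y = v * d.b (l + 2) := by rw [hy, hu]; ring
      have hv : v ≠ 0 := by
        intro hv
        rw [hv, zero_mul] at hx' hy'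
        rw [hx', hy'] at h1
        have := Q_pos d l
        simp [Jn] at h1
        linarith
      have hJ : Jn d (l + 2 + 1) x y ≤ d.Q (l + 2) / 16 := by
        have h3 := Jn_le d (l + 2 + 1) x y
        have h4 := tt_le_Jn d (l + 2) x y
        have hQlow := Q_low d (l + 2)
        have hQup := Q_up d (l + 1)
        have hb3 := b_cube d (l + 2)
        have hSb := S_le_b d (l + 1)
        have hbm := b_mono d (l + 1)
        have hbb := b_big d (l + 2)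
        have hbb3 := b_big d (l + 2 + 1)
        have hS := S_ge d (l + 2)
        have e3 : l + 1 + 1 = l + 2 := rfl
        rw [e3] at hQup hbm
        have h5 : d.Q (l + 1) ≤ 2 * (d.b (l + 2 + 1) : ℝ) := by
          calc d.Q (l + 1) ≤ 2 * (d.S (l + 1) * (d.b (l + 2) : ℝ) ^ 2) := hQup
            _ ≤ 2 * (d.b (l + 2) * (d.b (l + 2) : ℝ) ^ 2) :=
                mul_le_mul_of_nonneg_left
                  (mul_le_mul_of_nonneg_right (hSb.trans hbm) (by positivity)) (by norm_num)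
            _ = 2 * (d.b (l + 2) : ℝ) ^ 3 := by ring
            _ ≤ _ := by gcongr
        calc Jn d (l + 2 + 1) x y ≤ 2 * d.b (l + 2 + 1) * tt x y := h3
          _ ≤ 2 * d.b (l + 2 + 1) * (d.Q (l + 1) / 16) := by
              gcongr
              linarith
          _ ≤ 2 * d.b (l + 2 + 1) * (2 * (d.b (l + 2 + 1) : ℝ) / 16) := by gcongr
          _ = 4 * (d.b (l + 2 + 1) : ℝ) ^ 2 / 16 := by ring
          _ ≤ d.S (l + 2) * (d.b (l + 2 + 1) : ℝ) ^ 2 / 16 := by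
              gcongr
              linarith
          _ ≤ _ := by gcongr
      have hlow := lattice_low d (l + 2) v 0 hv (by
        rw [zero_mul, zero_mul, add_zero, add_zero, ← hx', ← hy']; exact hJ) p
      rw [zero_mul, zero_mul, add_zero, add_zero, ← hx', ← hy'] at hlow
      have hm := mult_low d ρ hρ1 hρ2 hγρ (l + 1) v hv (by
        have e4 : l + 1 + 1 = l + 2 := rfl
        rw [e4, ← hx', ← hy']; exact hdom)
      have e4 : l + 1 + 1 = l + 2 := rfl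
      rw [e4, ← hx', ← hy'] at hm
      rw [e4] at hg2
      calc d.g l / 200000 ≤ d.g (l + 2) / 200000 := by
            apply div_le_div_of_nonneg_right _ (by norm_num)
            linarith
        _ ≤ tt x y ^ 2 * (|(v : ℝ)| / (16 * d.Q (l + 2))) := hm
        _ ≤ tt x y ^ 2 * |Lf d x y - p| := by gcongr
    · have hlow := lattice_low d (l + 1) u v hu (by
        have e4 : l + 1 + 1 = l + 2 := rfl
        rw [e4, ← hx, ← hy]; exact h2) p
      rw [e2, ← hx, ← hy] at hlow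
      by_cases hv : v = 0
      · have hx' : x = u * d.a (l + 1) := by rw [hx, hv]; ring
        have hy' : y = u * d.b (l + 1) := by rw [hy, hv]; ring
        have hm := mult_low d ρ hρ1 hρ2 hγρ l u hu (by
          rw [← hx', ← hy']; exact hdom)
        rw [← hx', ← hy'] at hm
        calc d.g l / 200000 ≤ d.g (l + 1) / 200000 := by
              apply div_le_div_of_nonneg_right _ (by norm_num)
              linarith
          _ ≤ tt x y ^ 2 * (|(u : ℝ)| / (16 * d.Q (l + 1))) := hm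
          _ ≤ tt x y ^ 2 * |Lf d x y - p| := by gcongr
      · have hm := mixed_low d ρ hρ1 hρ2 (l + 1) u v hu hv (by
          have e4 : l + 1 + 1 = l + 2 := rfl
          rw [e4, ← hx, ← hy]; exact hdom)
        rw [e2, ← hx, ← hy] at hm
        calc d.g l / 200000 ≤ d.g (l + 1) / 1024 := by linarith
          _ ≤ tt x y ^ 2 * (|(u : ℝ)| / (16 * d.Q (l + 1))) := hm
          _ ≤ tt x y ^ 2 * |Lf d x y - p| := by gcongr
  · have := generic_low d l x y h1 h2 hdv p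
    linarith

end

/-! ### The main theorem -/

section

variable {γ K : ℝ} (d : Dat γ K)

theorem b_ge_nat (k : ℕ) : (k : ℝ) ≤ d.b k := by
  induction k with
  | zero => push_cast; positivity
  | succ k ih =>
    have h1 := b_cube d k
    have h2 := b_big d k
    push_cast
    have h3 : (d.b k : ℝ) + 1 ≤ (d.b k : ℝ) ^ 3 := by
      have h4 : (2 : ℝ) ≤ (d.b k : ℝ) ^ 2 := by nlinarith
      calc (d.b k : ℝ) + 1 ≤ 2 * d.b k := by linarith
        _ ≤ (d.b k : ℝ) ^ 2 * d.b k := by gcongr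
        _ = (d.b k : ℝ) ^ 3 := by ring
    linarith

theorem exists_level (x y : ℤ) (l₀ : ℕ) (h : d.Q l₀ / 16 < Jn d (l₀ + 1) x y) :
    ∃ l, l₀ ≤ l ∧ d.Q l / 16 ≤ Jn d (l + 1) x y ∧ Jn d (l + 2) x y ≤ d.Q (l + 1) / 16 := by
  have hex : ∃ n, Jn d (l₀ + n + 1) x y ≤ d.Q (l₀ + n) / 16 := by
    obtain ⟨n, hn⟩ := exists_nat_ge (2 * tt x y)
    refine ⟨n, ?_⟩
    have h1 := Jn_le d (l₀ + n + 1) x y
    have h2 := Q_low d (l₀ + n)
    have h3 := S_ge d (l₀ + n)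
    have h4 := b_ge_nat d (l₀ + n + 1)
    have h5 := b_big d (l₀ + n + 1)
    have h6 : 2 * tt x y ≤ d.b (l₀ + n + 1) := by
      push_cast at h4
      have : (0 : ℝ) ≤ l₀ := by positivity
      linarith
    set B := (d.b (l₀ + n + 1) : ℝ)
    calc Jn d (l₀ + n + 1) x y ≤ 2 * B * tt x y := h1
      _ = B * (2 * tt x y) := by ring
      _ ≤ B * B := by gcongr
      _ = 16 * B ^ 2 / 16 := by ring
      _ ≤ d.S (l₀ + n) * B ^ 2 / 16 := by gcongr
      _ ≤ _ := by gcongr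
  classical
  set n := Nat.find hex with hn
  have hn1 := Nat.find_spec hex
  rw [← hn] at hn1
  have hn0 : n ≠ 0 := by
    intro h0
    rw [h0, add_zero] at hn1
    linarith
  obtain ⟨n', hn'⟩ := Nat.exists_eq_succ_of_ne_zero hn0
  have hn2 := Nat.find_min hex (m := n') (by rw [← hn, hn']; exact Nat.lt_succ_self n')
  push Not at hn2
  refine ⟨l₀ + n', by omega, hn2.le, ?_⟩
  rw [hn'] at hn1
  have e1 : l₀ + n'.succ + 1 = l₀ + n' + 2 := by omega
  have e2 : l₀ + n'.succ = l₀ + n' + 1 := by omega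
  rw [e1, e2] at hn1
  exact hn1

theorem tt_up (l : ℕ) (x y : ℤ) (h : Jn d (l + 2) x y ≤ d.Q (l + 1) / 16) :
    tt x y ≤ (d.b l : ℝ) ^ (80 : ℕ) := by
  have h1 := tt_le_Jn d (l + 2) x y
  have hup : ∀ k, (d.b (k + 1) : ℝ) ≤ (d.b k : ℝ) ^ 5 := by
    intro k
    have h2 := b_succ_up d k
    have h3 := S_up d k
    have h4 := g_pow d k 4 (by norm_num)
    have h5 := g_ge d k
    have h6 := b_big d k
    have h7 : (d.S k : ℝ) ^ 2 ≤ d.b k := by
      calc (d.S k : ℝ) ^ 2 ≤ (2 * d.g k) ^ 2 := by gcongr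
        _ = 4 * d.g k ^ 2 := by ring
        _ ≤ d.g k ^ 2 * d.g k ^ 2 := by
            gcongr
            nlinarith
        _ = d.g k ^ 4 := by ring
        _ ≤ _ := h4
    calc (d.b (k + 1) : ℝ) ≤ 11 * (d.b k : ℝ) ^ 3 * (d.S k : ℝ) ^ 2 := h2
      _ ≤ d.b k * (d.b k : ℝ) ^ 3 * d.b k := by
          gcongr
          linarith
      _ = (d.b k : ℝ) ^ 5 := by ring
  have hb0 := b_big d l
  have hb2 : (d.b (l + 2) : ℝ) ≤ (d.b l : ℝ) ^ 25 := by
    calc (d.b (l + 2) : ℝ) ≤ (d.b (l + 1) : ℝ) ^ 5 := hup (l + 1)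
      _ ≤ ((d.b l : ℝ) ^ 5) ^ 5 := by
          have := hup l
          gcongr
      _ = (d.b l : ℝ) ^ 25 := by ring
  have hQ := Q_up d (l + 1)
  have hS : (d.S (l + 1) : ℝ) ≤ (d.b l : ℝ) ^ 5 := (S_le_b d (l + 1)).trans (hup l)
  have e1 : l + 1 + 1 = l + 2 := rfl
  rw [e1] at hQ
  calc tt x y ≤ d.Q (l + 1) / 16 := h1.trans h
    _ ≤ 2 * (d.S (l + 1) * (d.b (l + 2) : ℝ) ^ 2) / 16 := by gcongr
    _ ≤ 2 * ((d.b l : ℝ) ^ 5 * ((d.b l : ℝ) ^ 25) ^ 2) / 16 := by gcongr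
    _ = (d.b l : ℝ) ^ 55 / 8 := by ring
    _ ≤ (d.b l : ℝ) ^ 55 := by
        have : 0 ≤ (d.b l : ℝ) ^ 55 := by positivity
        linarith
    _ ≤ (d.b l : ℝ) ^ (80 : ℕ) := pow_le_pow_right₀ (by linarith) (by norm_num)

theorem indep (x y p : ℤ) (h : Lf d x y = p) : x = 0 ∧ y = 0 := by
  -- for all large `k` the wedge vanishes
  obtain ⟨n, hn⟩ := exists_nat_ge (2 * tt x y)
  have key : ∀ k, n ≤ k → jz d k x y = 0 := by
    intro k hk
    have hbn := b_ge_nat d k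
    have hbn1 := b_mono d k
    have hnk : (n : ℝ) ≤ k := by exact_mod_cast hk
    have hQ := Q_low d k
    have hS := S_ge d k
    have hbb := b_big d (k + 1)
    have hb := b_big d k
    have hJ : Jn d (k + 1) x y ≤ d.Q k / 16 := by
      have h1 := Jn_le d (k + 1) x y
      have h6 : 2 * tt x y ≤ d.b (k + 1) := by linarith
      set B := (d.b (k + 1) : ℝ)
      calc Jn d (k + 1) x y ≤ 2 * B * tt x y := h1
        _ = B * (2 * tt x y) := by ring
        _ ≤ B * B := by gcongr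
        _ = 16 * B ^ 2 / 16 := by ring
        _ ≤ d.S k * B ^ 2 / 16 := by gcongr
        _ ≤ _ := by gcongr
    have her := er_small d k x y hJ
    have hD := D_one d k
    obtain ⟨z, hz⟩ := form_eq d k x y
    have hdv : ((d.ρ k).den : ℤ) ∣ jz d k x y := by
      by_contra hnd
      have h1 := not_dvd_bound (d.ρ k) (jz d k x y) (z + p) hnd
      have h2 : jz d k x y * (d.ρ k : ℝ) - ((z + p : ℤ) : ℝ) = - er d k x y := by
        rw [h] at hz
        push_cast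
        linarith
      rw [h2, abs_neg] at h1
      have h3 : 1 / (4 * (d.D k : ℝ)) = 1 / (d.D k) / 4 := by field_simp
      rw [h3] at her
      have h4 : (0 : ℝ) < 1 / d.D k := by positivity
      have h5 : 1 / (d.D k : ℝ) ≤ |er d k x y| := h1
      linarith
    have h6 : |(jz d k x y : ℝ)| < d.D k := by
      have h7 := jz_abs_le d k x y
      have h8 := Jn_le d k x y
      have h9 := D_low' d k
      have h10 : 2 * tt x y ≤ d.b k := by linarith
      have h11 : Jn d k x y ≤ (d.b k : ℝ) ^ 2 := by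
        calc Jn d k x y ≤ 2 * d.b k * tt x y := h8
          _ = d.b k * (2 * tt x y) := by ring
          _ ≤ d.b k * d.b k := by gcongr
          _ = (d.b k : ℝ) ^ 2 := by ring
      have h12 : (d.b k : ℝ) ^ 2 < (d.b k : ℝ) ^ 3 := pow_lt_pow_right₀ (by linarith) (by norm_num)
      linarith
    have h7 : |jz d k x y| < ((d.ρ k).den : ℤ) := by
      have : ((|jz d k x y| : ℤ) : ℝ) < ((d.D k : ℕ) : ℝ) := by
        rw [Int.cast_abs]; exact h6
      exact_mod_cast this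
    exact Int.eq_zero_of_abs_lt_dvd hdv h7
  have h1 := key n le_rfl
  have h2 := key (n + 1) (by omega)
  have hw : (d.a n : ℤ) * d.b (n + 1) = (d.ρ n).den + d.b n * d.a (n + 1) := by
    exact_mod_cast (d.nxt n).wedge
  unfold jz at h1 h2
  have hden : ((d.ρ n).den : ℤ) ≠ 0 := by
    have := (d.ρ n).den_pos; omega
  have hx : ((d.ρ n).den : ℤ) * x = 0 := by
    linear_combination (d.a (n + 1) : ℤ) * h1 - (d.a n : ℤ) * h2 - x * hw
  have hx0 : x = 0 := (mul_eq_zero.1 hx).resolve_left hden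
  refine ⟨hx0, ?_⟩
  rw [hx0, mul_zero, sub_zero] at h1
  have ha : (d.a n : ℤ) ≠ 0 := by have := (d.good n).a_pos; omega
  exact (mul_eq_zero.1 h1).resolve_left ha

theorem lin_indep : LinearIndependent ℤ ![(1 : ℝ), -θb d, θa d] := by
  rw [Fintype.linearIndependent_iff]
  intro g hg
  rw [Fin.sum_univ_three] at hg
  simp only [Matrix.cons_val_zero, Matrix.cons_val_one, Matrix.cons_val, zsmul_eq_mul, mul_one] at hg
  have h1 : Lf d (g 1) (g 2) = ((-g 0 : ℤ) : ℝ) := by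
    unfold Lf
    push_cast
    linarith
  obtain ⟨h2, h3⟩ := indep d (g 1) (g 2) (-g 0) h1
  have h4 : g 0 = 0 := by
    rw [h2, h3] at h1
    unfold Lf at h1
    simp at h1
    exact_mod_cast h1
  intro i
  fin_cases i
  · exact h4
  · exact h2
  · exact h3

theorem finite_small (l₀ : ℕ) : {x : ℤ × ℤ | Jn d (l₀ + 1) x.1 x.2 ≤ d.Q l₀ / 16}.Finite := by
  obtain ⟨n, hn⟩ := exists_nat_ge (d.Q l₀ / 16)
  apply Set.Finite.subset ((Set.finite_Icc (-(n : ℤ)) n).prod (Set.finite_Icc (-(n : ℤ)) n))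
  rintro ⟨x, y⟩ hxy
  have hxy' : Jn d (l₀ + 1) x y ≤ d.Q l₀ / 16 := hxy
  have h1 := tt_le_Jn d (l₀ + 1) x y
  have h2 := tt_x x y
  have h3 := tt_y x y
  have h4 : |(x : ℝ)| ≤ n := by linarith
  have h5 : |(y : ℝ)| ≤ n := by linarith
  have h6 : |x| ≤ (n : ℤ) := by exact_mod_cast h4
  have h7 : |y| ≤ (n : ℤ) := by exact_mod_cast h5
  exact ⟨Set.mem_Icc.2 (abs_le.1 h6), Set.mem_Icc.2 (abs_le.1 h7)⟩

theorem g_tendsto : Tendsto d.g atTop atTop := by
  have h1 : Tendsto (fun k => (d.b k : ℝ)) atTop atTop :=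
    tendsto_atTop_mono (b_ge_nat d) tendsto_natCast_atTop_atTop
  exact (tendsto_rpow_atTop d.hγ).comp h1

end

/-- **Main theorem.** For `1 < ρ < 7/4` the pair `(ρ, 0)` admits no exponent
`s' ≥ 2 - (7 - 4 ρ) / 48000`; in particular it does not admit the exponent `2`. -/
theorem result (ρ : ℝ) (hρ1 : 1 < ρ) (hρ2 : ρ < 7 / 4) :
    ∀ s : ℝ, 2 - (7 - 4 * ρ) / 48000 ≤ s → ¬ Admits ρ 0 s := by
  intro s hs hadm
  set γ : ℝ := (7 - 4 * ρ) / 300 with hγdef
  have hγ : 0 < γ := by rw [hγdef]; apply div_pos <;> linarith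
  have hγ2 : γ ≤ 1 / 100 := by
    rw [hγdef, div_le_div_iff₀ (by norm_num) (by norm_num)]
    linarith
  have hγρ : 26 * γ ≤ 7 - 4 * ρ := by
    rw [hγdef]; linarith
  have hs' : 2 - γ / 160 ≤ s := by
    have : γ / 160 = (7 - 4 * ρ) / 48000 := by rw [hγdef]; ring
    rw [this]; exact hs
  obtain ⟨K, ⟨d⟩⟩ := exists_dat hγ hγ2
  obtain ⟨c, hc, hinf⟩ := hadm (-θb d) (θa d) (lin_indep d) (LinearEquiv.refl ℝ (ℝ × ℝ))
  apply hinf
  -- choose a large level
  obtain ⟨l₀, hl₀⟩ := ((g_tendsto d).eventually_gt_atTop ((200000 * c) ^ 2)).exists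
  apply (finite_small d l₀).subset
  rintro ⟨x, y⟩ ⟨hdom, hdist⟩
  simp only at hdist
  change Jn d (l₀ + 1) x y ≤ d.Q l₀ / 16
  by_contra hcon
  push Not at hcon
  obtain ⟨l, hl, hl1, hl2⟩ := exists_level d x y l₀ hcon
  have hdom' : |(x : ℝ)| ≤ 1 ∨ |(y : ℝ)| ≤ |(x : ℝ)| ^ ρ := by
    obtain ⟨z, hz, hze⟩ := hdom
    have hze' : z = ((x : ℝ), (y : ℝ)) := hze
    rw [hze'] at hz
    rcases hz with h | h
    · right; exact h
    · left
      have h' : |(x : ℝ)| ≤ |(y : ℝ)| ^ (0 : ℝ) := h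
      rwa [Real.rpow_zero] at h'
  have hlow := level_low d ρ hρ1 hρ2 hγρ l x y hl1 hl2 hdom'
    (round (-θb d * (x : ℝ) + θa d * (y : ℝ)))
  have hLf : |Lf d x y - (round (-θb d * (x : ℝ) + θa d * (y : ℝ)) : ℤ)|
      = distInt (-θb d * x + θa d * y) := rfl
  rw [hLf] at hlow
  -- the vector is non-zero
  have ht1 : 1 ≤ tt x y := by
    by_contra ht
    push Not at ht
    have h1 := (tt_x x y).trans_lt ht
    have h2 := (tt_y x y).trans_lt ht
    have h3 : x = 0 := by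
      have : |x| < 1 := by exact_mod_cast h1
      exact Int.abs_lt_one_iff.1 this
    have h4 : y = 0 := by
      have : |y| < 1 := by exact_mod_cast h2
      exact Int.abs_lt_one_iff.1 this
    rw [h3, h4] at hl1
    have := Q_pos d l
    simp [Jn] at hl1
    linarith
  have htup := tt_up d l x y hl2
  have hb := b_big d l
  have hg := g_ge d l
  have hgl : d.g l₀ ≤ d.g l := g_mono d hl
  have htt : tt x y = max |(x : ℝ)| |(y : ℝ)| := rfl
  rw [← htt] at hdist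
  set t := tt x y with ht
  have h5 : t ^ 2 * distInt (-θb d * x + θa d * y) ≤ c * t ^ (γ / 160) := by
    calc t ^ 2 * distInt (-θb d * x + θa d * y) ≤ t ^ 2 * (c * t ^ (-s)) := by gcongr
      _ ≤ t ^ 2 * (c * t ^ (-(2 - γ / 160))) := by
          gcongr
      _ = c * t ^ (γ / 160) := by
          have h6 : t ^ (-(2 - γ / 160)) = t ^ (γ / 160) / t ^ (2 : ℕ) := by
            rw [← Real.rpow_natCast t 2, ← Real.rpow_sub (by linarith)]
            congr 1; push_cast; ring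
          rw [h6]; field_simp
  have h6 : t ^ (γ / 160) ≤ Real.sqrt (d.g l) := by
    calc t ^ (γ / 160) ≤ ((d.b l : ℝ) ^ (80 : ℕ)) ^ (γ / 160) :=
          Real.rpow_le_rpow (by linarith) htup (by positivity)
      _ = Real.sqrt (d.g l) := by
          unfold Dat.g
          rw [Real.sqrt_eq_rpow, ← Real.rpow_natCast, ← Real.rpow_mul (by positivity),
            ← Real.rpow_mul (by positivity)]
          congr 1; push_cast; ring
  have h7 : d.g l / 200000 ≤ c * Real.sqrt (d.g l) := by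
    refine hlow.trans (h5.trans ?_)
    gcongr
  have h8 : Real.sqrt (d.g l) ^ 2 = d.g l := Real.sq_sqrt (by linarith)
  have h9 : 0 < Real.sqrt (d.g l) := Real.sqrt_pos.2 (by linarith)
  have h10 : Real.sqrt (d.g l) ≤ 200000 * c := by
    have h13 : Real.sqrt (d.g l) ^ 2 / 200000 ≤ c * Real.sqrt (d.g l) := by rw [h8]; exact h7
    rw [div_le_iff₀ (by norm_num), pow_two] at h13
    have h11 : Real.sqrt (d.g l) * Real.sqrt (d.g l) ≤ Real.sqrt (d.g l) * (200000 * c) := by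
      linarith
    exact le_of_mul_le_mul_left h11 h9
  have h12 : d.g l ≤ (200000 * c) ^ 2 := by
    rw [← h8]
    gcongr
  linarith

end Pool.Agent.Results.MP_594f4b_nt.SevenFourths
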